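import Pool.Agent.T2h76R.Hw
import Pool.Agent.T2h76.Bi3

/-! The case `D = -1`. -/

set_option autoImplicit false

namespace Pool.Agent.T2h76R

open Finset
open Pool.Agent.T2h76Q (Rt Ws mem_Rt)

theorem Rt_neg_one (m : ℕ) : Rt (-1) m = Pool.Agent.T2h76.Rt m := by
  ext ν
  rw [mem_Rt, Pool.Agent.T2h76.mem_Rt, sub_neg_eq_add]

theorem hasWeyl1 : HasWeylE (-1) 1 where
  nsq := by
    rintro ⟨r, hr⟩
    nlinarith [mul_self_nonneg r]
  card := by
    refine ⟨2, by norm_num, ?_⟩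
    intro X
    refine le_trans (le_of_eq ?_) (Pool.Agent.T2h76.sum_card_Rt X)
    exact sum_congr rfl fun m _ => by rw [Rt_neg_one]
  weyl := by
    intro ε hε
    obtain ⟨C, hC, H⟩ := Pool.Agent.T2h76.weyl ε hε
    refine ⟨C, hC, ?_⟩
    intro M L q Θ j Φ B hM hL hq _ hLq hΘ hj hB hΦ hΦ0 hΦ1
    have h := H M L q Θ j Φ B hM hL hq hLq (by rwa [sub_neg_eq_add] at hΘ) hj hB hΦ hΦ0 hΦ1
    have e : Ws (-1) (3 * M) L q Θ j Φ = Pool.Agent.T2h76.Ws (3 * M) L q Θ j Φ := by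
      unfold Pool.Agent.T2h76Q.Ws Pool.Agent.T2h76.Ws
      exact sum_congr rfl fun m _ => by rw [Rt_neg_one]
    rw [e]
    exact h

end Pool.Agent.T2h76R
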