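import Pool.Agent.T2h76R.Hw

/-! The case `D = -4`, moduli prime to `2`. -/

set_option autoImplicit false

namespace Pool.Agent.T2h76R

open Finset
open Pool.Agent.T2h76Q (Rt Ws mem_Rt)
open Pool.Agent.T2h76 (wt crt crt_spec e_crt)
open Pool.Agent.H442R2.KF (e norm_e e_add e_congr norm_e_sub_le)

theorem two_cop (m : ℕ) (hm : Nat.Coprime m 2) (x : ℤ) (h : (m : ℤ) ∣ 2 * x) : (m : ℤ) ∣ x := by
  have h1 : IsCoprime (m : ℤ) (2 : ℤ) := by exact_mod_cast Nat.isCoprime_iff_coprime.mpr hm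
  exact h1.dvd_of_dvd_mul_left h

theorem sum_Rt4 (m : ℕ) (hm : 1 ≤ m) (h2 : Nat.Coprime m 2) (f : ℤ → ℂ) :
    ∑ ν ∈ Rt (-4) m, f ν = ∑ μ ∈ Pool.Agent.T2h76.Rt m, f (2 * μ % m) := by
  have hm0 : (0 : ℤ) < m := by exact_mod_cast (by omega : 0 < m)
  symm
  refine Finset.sum_bij (fun μ _ => 2 * μ % m) ?_ ?_ ?_ ?_
  · intro μ hμ
    obtain ⟨h3, h4, h5⟩ := Pool.Agent.T2h76.mem_Rt.1 hμ
    rw [mem_Rt]
    refine ⟨Int.emod_nonneg _ hm0.ne', Int.emod_lt_of_pos _ hm0, ?_⟩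
    obtain ⟨t, ht⟩ : (m : ℤ) ∣ 2 * μ - 2 * μ % m := Int.dvd_self_sub_emod
    have e : (2 * μ % m) ^ 2 - (-4 : ℤ) = 4 * (μ ^ 2 + 1) - m * (t * (2 * μ + 2 * μ % m)) := by
      linear_combination (-(2 * μ + 2 * μ % m)) * ht
    rw [e]
    exact dvd_sub (h5.mul_left _) (dvd_mul_right _ _)
  · intro a ha b hb hab
    obtain ⟨a1, a2, a3⟩ := Pool.Agent.T2h76.mem_Rt.1 ha
    obtain ⟨b1, b2, b3⟩ := Pool.Agent.T2h76.mem_Rt.1 hb
    have h3 : (m : ℤ) ∣ 2 * (a - b) := by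
      have h4 : (2 * a) % m = (2 * b) % m := hab
      have h5 := Int.emod_emod_of_dvd
      have h6 : (m : ℤ) ∣ 2 * b - 2 * a := Int.ModEq.dvd h4
      have e : 2 * (a - b) = -(2 * b - 2 * a) := by ring
      rw [e]
      exact (dvd_neg).2 h6
    have h4 := two_cop m h2 _ h3
    have h5 : |a - b| < m := by
      rw [abs_lt]
      constructor <;> omega
    have h6 := Int.eq_zero_of_abs_lt_dvd h4 h5
    omega
  · intro ν hν
    obtain ⟨a1, a2, a3⟩ := mem_Rt.1 hν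
    -- the half of `ν`
    have hodd : ∃ k : ℕ, m = 2 * k + 1 := by
      have : m % 2 = 1 := by
        rcases Nat.mod_two_eq_zero_or_one m with h | h
        · exfalso
          have h3 : 2 ∣ m := Nat.dvd_of_mod_eq_zero h
          have h4 := Nat.dvd_gcd h3 (dvd_refl 2)
          rw [h2] at h4
          omega
        · exact h
      exact ⟨m / 2, by omega⟩
    obtain ⟨k, hk⟩ := hodd
    have hkz : (m : ℤ) = 2 * k + 1 := by exact_mod_cast hk
    obtain ⟨t, ht⟩ : (m : ℤ) ∣ ν * (k + 1) - ν * (k + 1) % m := Int.dvd_self_sub_emod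
    set μ : ℤ := ν * (k + 1) % m with hμ
    have h2μ : (m : ℤ) ∣ 2 * μ - ν := by
      have e : 2 * μ - ν = m * (ν - 2 * t) := by
        linear_combination (-2) * ht + (-ν) * hkz
      rw [e]
      exact dvd_mul_right _ _
    refine ⟨μ, ?_, ?_⟩
    · rw [Pool.Agent.T2h76.mem_Rt]
      refine ⟨Int.emod_nonneg _ hm0.ne', Int.emod_lt_of_pos _ hm0, ?_⟩
      apply two_cop m h2
      apply two_cop m h2
      obtain ⟨s, hs⟩ := h2μ
      have e : 2 * (2 * (μ ^ 2 + 1)) = (ν ^ 2 - (-4)) + m * (s * (2 * μ + ν)) := by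
        linear_combination (2 * μ + ν) * hs
      rw [e]
      exact dvd_add a3 (dvd_mul_right _ _)
    · show 2 * μ % m = ν
      have h3 : 2 * μ % m = ν % m := by
        apply Int.ModEq.symm
        exact Int.modEq_iff_dvd.2 h2μ
      rw [h3]
      exact Int.emod_eq_of_lt a1 a2
  · intro a _
    rfl

theorem card_Rt4 (m : ℕ) (hm : 1 ≤ m) (h2 : Nat.Coprime m 2) :
    ((Rt (-4) m).card : ℝ) = ((Pool.Agent.T2h76.Rt m).card : ℝ) := by
  have h := sum_Rt4 m hm h2 (fun _ => 1)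
  simp only [sum_const, nsmul_eq_mul, mul_one] at h
  exact_mod_cast h

open Classical in
/-- the periodic weight -/
noncomputable def gq (L q : ℕ) [NeZero q] (j Θ : ℤ) (m : ℕ) : ℂ :=
  ZMod.stdAddChar (((j * Θ : ℤ) : ZMod q) * (((m * L : ℕ) : ZMod q))⁻¹)

theorem gq_norm (L q : ℕ) [NeZero q] (j Θ : ℤ) (m : ℕ) : ‖gq L q j Θ m‖ ≤ 1 := by
  unfold gq
  rw [AddChar.norm_apply]

theorem gq_per (L q : ℕ) [NeZero q] (j Θ : ℤ) (m m' : ℕ) (h : m ≡ m' [MOD q]) :
    gq L q j Θ m = gq L q j Θ m' := by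
  unfold gq
  have h1 : ((m : ℕ) : ZMod q) = ((m' : ℕ) : ZMod q) := (ZMod.natCast_eq_natCast_iff _ _ _).2 h
  congr 3
  push_cast
  rw [h1]

/-- one term -/
theorem wt4 (L q : ℕ) [NeZero q] (hL : 1 ≤ L) (hq : 1 ≤ q) (hLq : Nat.Coprime L q) (Θ Θ' j : ℤ)
    (hΘ : (L : ℤ) ∣ 2 * Θ' - Θ) (hΘ' : (q : ℤ) ∣ Θ') (Φ : ℕ → ℂ) (m : ℕ) (hm : 1 ≤ m) (μ : ℤ) :
    wt L q Θ j Φ m (2 * μ % m) = gq L q j Θ m * wt L q Θ' (2 * j) Φ m μ := by
  have hLq1 : 1 ≤ L * q := Nat.mul_pos hL hq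
  unfold wt
  by_cases h : Nat.Coprime m (L * q)
  · rw [if_pos h, if_pos h]
    obtain ⟨a1, a2⟩ := crt_spec m (L * q) hLq1 h (2 * μ % m) Θ
    obtain ⟨b1, b2⟩ := crt_spec m (L * q) hLq1 h μ Θ'
    set c := crt m (L * q) (2 * μ % m) Θ with hc
    set c' := crt m (L * q) μ Θ' with hc'
    have hmL : Nat.Coprime m L := Nat.Coprime.coprime_mul_right_right h
    have hmq : Nat.Coprime m q := Nat.Coprime.coprime_mul_left_right h
    have hLd : (L : ℤ) ∣ ((L * q : ℕ) : ℤ) := by push_cast; exact dvd_mul_right _ _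
    have hqd : (q : ℤ) ∣ ((L * q : ℕ) : ℤ) := by push_cast; exact dvd_mul_left _ _
    have d1 : (m : ℤ) ∣ c - 2 * c' := by
      have e1 : c - 2 * c' = (c - 2 * μ % m) - 2 * (c' - μ) - (2 * μ - 2 * μ % m) := by ring
      rw [e1]
      exact dvd_sub (dvd_sub a1 (b1.mul_left _)) Int.dvd_self_sub_emod
    have d2 : (L : ℤ) ∣ c - 2 * c' := by
      have e1 : c - 2 * c' = (c - Θ) - 2 * (c' - Θ') - (2 * Θ' - Θ) := by ring
      rw [e1]
      exact dvd_sub (dvd_sub (hLd.trans a2) ((hLd.trans b2).mul_left _)) hΘ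
    have d3 : (q : ℤ) ∣ c - 2 * c' - Θ := by
      have e1 : c - 2 * c' - Θ = (c - Θ) - 2 * (c' - Θ') - 2 * Θ' := by ring
      rw [e1]
      exact dvd_sub (dvd_sub (hqd.trans a2) ((hqd.trans b2).mul_left _)) (hΘ'.mul_left _)
    obtain ⟨t, ht⟩ : (m : ℤ) * L ∣ c - 2 * c' := (Nat.isCoprime_iff_coprime.mpr hmL).mul_dvd d1 d2
    have hmLq : Nat.Coprime (m * L) q := Nat.Coprime.mul_left hmq hLq
    have hu : IsUnit (((m * L : ℕ)) : ZMod q) := (ZMod.isUnit_iff_coprime _ _).2 hmLq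
    have htq : ((t : ℤ) : ZMod q) = ((Θ : ℤ) : ZMod q) * (((m * L : ℕ) : ZMod q))⁻¹ := by
      have h1 : (((m * L : ℕ)) : ZMod q) * ((t : ℤ) : ZMod q) = ((Θ : ℤ) : ZMod q) := by
        rw [ht] at d3
        have h2 : (((m : ℤ) * L * t : ℤ) : ZMod q) = ((Θ : ℤ) : ZMod q) := by
          rw [eq_comm, ZMod.intCast_eq_intCast_iff_dvd_sub]
          exact d3
        rw [← h2]
        push_cast
        ring
      rw [← h1]
      have h2 := ZMod.mul_inv_of_unit _ hu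
      calc ((t : ℤ) : ZMod q) = ((((m * L : ℕ)) : ZMod q) * ((((m * L : ℕ)) : ZMod q))⁻¹) *
            ((t : ℤ) : ZMod q) := by rw [h2, one_mul]
        _ = _ := by ring
    have hg : gq L q j Θ m = e ((j : ℝ) * t / q) := by
      unfold gq
      have h1 : ((j * Θ : ℤ) : ZMod q) * (((m * L : ℕ) : ZMod q))⁻¹ = ((j * t : ℤ) : ZMod q) := by
        push_cast
        rw [htq]
        push_cast
        ring
      rw [h1, ZMod.stdAddChar_coe]
      unfold Pool.Agent.H442R2.KF.e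
      congr 1
      push_cast
      ring
    have hmr : (m : ℝ) ≠ 0 := by exact_mod_cast (by omega : m ≠ 0)
    have hLr : (L : ℝ) ≠ 0 := by exact_mod_cast (by omega : L ≠ 0)
    have hqr : (q : ℝ) ≠ 0 := by exact_mod_cast (by omega : q ≠ 0)
    have hr : (c : ℝ) - 2 * c' = m * L * t := by exact_mod_cast ht
    rw [hg]
    have h5 : e ((j : ℝ) * c / (m * (L * q))) =
        e ((j : ℝ) * t / q) * e (((2 * j : ℤ) : ℝ) * c' / (m * (L * q))) := by
      rw [← e_add]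
      congr 1
      have h6 : (c : ℝ) = m * L * t + 2 * c' := by linarith
      rw [h6]
      push_cast
      field_simp
    rw [h5]
    ring
  · rw [if_neg h, if_neg h, mul_zero]

theorem sum_dvd_le (f : ℕ → ℝ) (hf : ∀ n, 0 ≤ f n) (d X : ℕ) (hd : 1 ≤ d) :
    ∑ m ∈ Icc 1 X, (if d ∣ m then f (m / d) else 0) ≤ ∑ n ∈ Icc 1 X, f n := by
  rw [← sum_filter]
  have h1 : ∑ m ∈ (Icc 1 X).filter (fun m => d ∣ m), f (m / d) =
      ∑ n ∈ ((Icc 1 X).filter (fun m => d ∣ m)).image (fun m => m / d), f n := by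
    rw [sum_image]
    intro a ha b hb hab
    obtain ⟨a1, a2⟩ := mem_filter.1 (Finset.mem_coe.1 ha)
    obtain ⟨b1, b2⟩ := mem_filter.1 (Finset.mem_coe.1 hb)
    obtain ⟨s, hs⟩ := a2
    obtain ⟨t, ht⟩ := b2
    have hab' : a / d = b / d := hab
    rw [hs, ht, Nat.mul_div_cancel_left _ hd, Nat.mul_div_cancel_left _ hd] at hab'
    rw [hs, ht, hab']
  rw [h1]
  apply sum_le_sum_of_subset_of_nonneg
  · intro n hn
    rw [mem_image] at hn
    obtain ⟨m, hm, rfl⟩ := hn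
    rw [mem_filter, mem_Icc] at hm
    rw [mem_Icc]
    refine ⟨?_, (Nat.div_le_self _ _).trans hm.1.2⟩
    exact Nat.div_pos (Nat.le_of_dvd (by omega) hm.2) hd
  · intro n _ _
    exact hf n

/-- the roots for the even moduli -/
theorem card_Rt4_even (n : ℕ) (hn : 1 ≤ n) :
    (Rt (-4) (2 * n)).card ≤ ((Ico (0 : ℤ) n).filter (fun μ => (n : ℤ) ∣ 2 * (μ ^ 2 + 1))).card := by
  apply card_le_card_of_injOn (fun ν => ν / 2)
  · intro ν hν
    obtain ⟨a1, a2, a3⟩ := mem_Rt.1 hν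
    have hev : (2 : ℤ) ∣ ν := by
      have h1 : (2 : ℤ) ∣ ν ^ 2 - -4 := by
        refine dvd_trans ?_ a3
        push_cast
        exact dvd_mul_right _ _
      have h2 : (2 : ℤ) ∣ ν ^ 2 := by
        obtain ⟨t, ht⟩ := h1
        exact ⟨t - 2, by linarith⟩
      exact Int.prime_two.dvd_of_dvd_pow h2
    obtain ⟨μ, rfl⟩ := hev
    have e : 2 * μ / 2 = μ := by omega
    simp only [e, coe_filter, Set.mem_setOf_eq, mem_Ico]
    refine ⟨⟨by omega, ?_⟩, ?_⟩
    · push_cast at a2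
      omega
    · obtain ⟨t, ht⟩ := a3
      refine ⟨t, ?_⟩
      push_cast at ht
      linarith
  · intro a ha b hb hab
    obtain ⟨a1, a2, a3⟩ := mem_Rt.1 (Finset.mem_coe.1 ha)
    obtain ⟨b1, b2, b3⟩ := mem_Rt.1 (Finset.mem_coe.1 hb)
    have hev : ∀ ν : ℤ, ((2 * n : ℕ) : ℤ) ∣ ν ^ 2 - -4 → (2 : ℤ) ∣ ν := by
      intro ν h
      have h1 : (2 : ℤ) ∣ ν ^ 2 - -4 := by
        refine dvd_trans ?_ h
        push_cast
        exact dvd_mul_right _ _
      have h2 : (2 : ℤ) ∣ ν ^ 2 := by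
        obtain ⟨t, ht⟩ := h1
        exact ⟨t - 2, by linarith⟩
      exact Int.prime_two.dvd_of_dvd_pow h2
    obtain ⟨x, rfl⟩ := hev a a3
    obtain ⟨y, rfl⟩ := hev b b3
    have hab' : 2 * x / 2 = 2 * y / 2 := hab
    omega

theorem card_Rt4_le (m : ℕ) (hm : 1 ≤ m) :
    ((Rt (-4) m).card : ℝ) ≤ ((Pool.Agent.T2h76.Rt m).card : ℝ) +
      (if 2 ∣ m then ((Pool.Agent.T2h76.Rt (m / 2)).card : ℝ) else 0) +
      2 * (if 4 ∣ m then ((Pool.Agent.T2h76.Rt (m / 4)).card : ℝ) else 0) := by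
  rcases Nat.mod_two_eq_zero_or_one m with h | h
  · obtain ⟨n, rfl⟩ : ∃ n, m = 2 * n := ⟨m / 2, by omega⟩
    have hn : 1 ≤ n := by omega
    have h1 := card_Rt4_even n hn
    rcases Nat.mod_two_eq_zero_or_one n with h2 | h2
    · obtain ⟨k, rfl⟩ : ∃ k, n = 2 * k := ⟨n / 2, by omega⟩
      have hk : 1 ≤ k := by omega
      have hk0 : (0 : ℤ) < k := by exact_mod_cast (by omega : 0 < k)
      have h4 : 4 ∣ 2 * (2 * k) := ⟨k, by ring⟩
      have e4 : 2 * (2 * k) / 4 = k := by omega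
      rw [if_pos h4, e4]
      have h5 : ((Ico (0 : ℤ) (2 * k : ℕ)).filter (fun μ => ((2 * k : ℕ) : ℤ) ∣ 2 * (μ ^ 2 + 1))).card ≤
          (Pool.Agent.T2h76.Rt k ×ˢ (Finset.range 2)).card := by
        apply card_le_card_of_injOn (fun μ : ℤ => (μ % (k : ℤ), (μ / (k : ℤ)).toNat))
        · intro μ hμ
          simp only [coe_filter, Set.mem_setOf_eq, mem_Ico] at hμ
          obtain ⟨⟨c1, c2⟩, c3⟩ := hμ
          push_cast at c2 c3
          simp only [coe_product, Set.mem_prod, Finset.mem_coe, mem_range]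
          constructor
          · rw [Pool.Agent.T2h76.mem_Rt]
            refine ⟨Int.emod_nonneg _ hk0.ne', Int.emod_lt_of_pos _ hk0, ?_⟩
            obtain ⟨t, ht⟩ := c3
            obtain ⟨s, hs⟩ : (k : ℤ) ∣ μ - μ % k := Int.dvd_self_sub_emod
            refine ⟨t - s * (μ + μ % k), ?_⟩
            have ht' : μ ^ 2 + 1 = k * t := by
              push_cast at ht
              linarith
            linear_combination ht' + (-(μ + μ % k)) * hs
          · have h6 : μ / k < 2 := Int.ediv_lt_of_lt_mul hk0 (by linarith)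
            omega
        · intro a ha b hb hab
          simp only [Prod.mk.injEq] at hab
          simp only [coe_filter, Set.mem_setOf_eq, mem_Ico] at ha hb
          have ha1 : 0 ≤ a / k := Int.ediv_nonneg ha.1.1 hk0.le
          have hb1 : 0 ≤ b / k := Int.ediv_nonneg hb.1.1 hk0.le
          have e1 : a / k = b / k := by omega
          have e2 := Int.emod_add_mul_ediv a k
          have e3 := Int.emod_add_mul_ediv b k
          rw [← e2, ← e3, hab.1, e1]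
      have h6 : (Pool.Agent.T2h76.Rt k ×ˢ (Finset.range 2)).card = (Pool.Agent.T2h76.Rt k).card * 2 := by
        rw [card_product, card_range]
      have h7 : ((Rt (-4) (2 * (2 * k))).card : ℝ) ≤ (Pool.Agent.T2h76.Rt k).card * 2 := by
        have := h1.trans (h5.trans h6.le)
        exact_mod_cast this
      have h8 : (0 : ℝ) ≤ ((Pool.Agent.T2h76.Rt (2 * (2 * k))).card : ℝ) := Nat.cast_nonneg _
      have h9 : (0 : ℝ) ≤ (if 2 ∣ 2 * (2 * k) then ((Pool.Agent.T2h76.Rt (2 * (2 * k) / 2)).card : ℝ) else 0) := by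
        split_ifs <;> positivity
      linarith
    · have h2' : Nat.Coprime n 2 := by
        rw [Nat.coprime_comm, Nat.Prime.coprime_iff_not_dvd Nat.prime_two]
        omega
      have h4 : ¬ 4 ∣ 2 * n := by omega
      rw [if_neg h4, if_pos (dvd_mul_right 2 n), Nat.mul_div_cancel_left n (by norm_num)]
      have h5 : ((Ico (0 : ℤ) n).filter (fun μ => (n : ℤ) ∣ 2 * (μ ^ 2 + 1))).card ≤
          (Pool.Agent.T2h76.Rt n).card := by
        apply card_le_card
        intro μ hμ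
        rw [mem_filter, mem_Ico] at hμ
        rw [Pool.Agent.T2h76.mem_Rt]
        exact ⟨hμ.1.1, hμ.1.2, two_cop n h2' _ hμ.2⟩
      have h7 : ((Rt (-4) (2 * n)).card : ℝ) ≤ (Pool.Agent.T2h76.Rt n).card := by
        exact_mod_cast h1.trans h5
      have h8 : (0 : ℝ) ≤ ((Pool.Agent.T2h76.Rt (2 * n)).card : ℝ) := Nat.cast_nonneg _
      linarith
  · have h2' : Nat.Coprime m 2 := by
      rw [Nat.coprime_comm, Nat.Prime.coprime_iff_not_dvd Nat.prime_two]
      omega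
    rw [card_Rt4 m hm h2']
    have h9 : (0 : ℝ) ≤ (if 2 ∣ m then ((Pool.Agent.T2h76.Rt (m / 2)).card : ℝ) else 0) := by
      split_ifs <;> positivity
    have h10 : (0 : ℝ) ≤ (if 4 ∣ m then ((Pool.Agent.T2h76.Rt (m / 4)).card : ℝ) else 0) := by
      split_ifs <;> positivity
    linarith

theorem hasWeyl4 : HasWeylE (-4) 2 where
  nsq := by
    rintro ⟨r, hr⟩
    nlinarith [mul_self_nonneg r]
  card := by
    refine ⟨8, by norm_num, ?_⟩
    intro X
    have h1 := Pool.Agent.T2h76.sum_card_Rt X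
    have h2 := sum_dvd_le (fun n => ((Pool.Agent.T2h76.Rt n).card : ℝ)) (fun n => Nat.cast_nonneg _) 2 X (by norm_num)
    have h4 := sum_dvd_le (fun n => ((Pool.Agent.T2h76.Rt n).card : ℝ)) (fun n => Nat.cast_nonneg _) 4 X (by norm_num)
    have h5 : ∑ m ∈ Icc 1 X, ((Rt (-4) m).card : ℝ) ≤ ∑ m ∈ Icc 1 X, (((Pool.Agent.T2h76.Rt m).card : ℝ) +
      (if 2 ∣ m then ((Pool.Agent.T2h76.Rt (m / 2)).card : ℝ) else 0) +
      2 * (if 4 ∣ m then ((Pool.Agent.T2h76.Rt (m / 4)).card : ℝ) else 0)) := by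
      apply sum_le_sum
      intro m hm
      rw [mem_Icc] at hm
      exact card_Rt4_le m hm.1
    rw [sum_add_distrib, sum_add_distrib, ← mul_sum] at h5
    linarith
  weyl := by
    intro ε hε
    obtain ⟨C, hC, H⟩ := weylP ε hε
    refine ⟨C * 2 ^ ε * 2, by positivity, ?_⟩
    intro M L q Θ j Φ B hM hL hq h2q hLq hΘ hj hB hΦ hΦ0 hΦ1
    have : NeZero q := ⟨by omega⟩
    have hL2 : Nat.Coprime L 2 := hLq.coprime_dvd_right h2q
    -- the half of the root
    obtain ⟨k, hk⟩ : ∃ k : ℕ, L = 2 * k + 1 := by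
      have : L % 2 = 1 := by
        rcases Nat.mod_two_eq_zero_or_one L with h | h
        · exfalso
          have h3 : 2 ∣ L := Nat.dvd_of_mod_eq_zero h
          have h4 := Nat.dvd_gcd h3 (dvd_refl 2)
          rw [hL2] at h4
          omega
        · exact h
      exact ⟨L / 2, by omega⟩
    have hkz : (L : ℤ) = 2 * k + 1 := by exact_mod_cast hk
    obtain ⟨a1, a2⟩ := crt_spec L q hq hLq (Θ * (k + 1)) 0
    set Θ' : ℤ := crt L q (Θ * (k + 1)) 0 with hΘ'
    have b1 : (L : ℤ) ∣ 2 * Θ' - Θ := by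
      obtain ⟨s, hs⟩ := a1
      refine ⟨2 * s + Θ, ?_⟩
      linear_combination 2 * hs + (-Θ) * hkz
    have b2 : (q : ℤ) ∣ Θ' := by simpa using a2
    have b3 : (L : ℤ) ∣ Θ' ^ 2 + 1 := by
      apply two_cop L hL2
      apply two_cop L hL2
      obtain ⟨s, hs⟩ := b1
      have e1 : 2 * (2 * (Θ' ^ 2 + 1)) = (Θ ^ 2 - (-4)) + L * (s * (2 * Θ' + Θ)) := by
        linear_combination (2 * Θ' + Θ) * hs
      rw [e1]
      exact dvd_add hΘ (dvd_mul_right _ _)
    have hWs : Ws (-4) (3 * M) L q Θ j Φ = WsP (gq L q j Θ) (3 * M) L q Θ' (2 * j) Φ := by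
      unfold Pool.Agent.T2h76Q.Ws WsP
      apply sum_congr rfl
      intro m hm
      rw [mem_Icc] at hm
      by_cases h : Nat.Coprime m (L * q)
      · have hm2 : Nat.Coprime m 2 :=
          (Nat.Coprime.coprime_mul_left_right h).coprime_dvd_right h2q
        rw [sum_Rt4 m hm.1 hm2]
        apply sum_congr rfl
        intro μ _
        exact wt4 L q hL hq hLq Θ Θ' j b1 b2 Φ m hm.1 μ
      · rw [sum_eq_zero, sum_eq_zero]
        · intro ν _
          unfold wt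
          rw [if_neg h, mul_zero]
        · intro ν _
          unfold wt
          rw [if_neg h]
    have hmain := H M L q Θ' (2 * j) Φ (gq L q j Θ) B hM hL hq hLq b3 (by omega) hB hΦ hΦ0 hΦ1
      (gq_norm L q j Θ) (gq_per L q j Θ)
    rw [hWs]
    refine hmain.trans ?_
    have hgcd : Nat.gcd L (2 * j).natAbs = Nat.gcd L j.natAbs := by
      rw [Int.natAbs_mul]
      exact Nat.Coprime.gcd_mul_left_cancel_right _ (by simpa using hL2.symm)
    have hj2 : |((2 * j : ℤ) : ℝ)| = 2 * |(j : ℝ)| := by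
      push_cast
      rw [abs_mul, abs_of_pos (by norm_num : (0 : ℝ) < 2)]
    rw [hgcd, hj2]
    have hMr : (0 : ℝ) < M := by exact_mod_cast hM
    have hLr : (0 : ℝ) < L := by exact_mod_cast hL
    have hqr : (0 : ℝ) < q := by exact_mod_cast hq
    have e1 : ((M : ℝ) * L * q * (2 * |(j : ℝ)|)) ^ ε = 2 ^ ε * ((M : ℝ) * L * q * |(j : ℝ)|) ^ ε := by
      rw [← Real.mul_rpow (by norm_num) (by positivity)]
      congr 1
      ring
    have e2 : B * (1 + 2 * |(j : ℝ)| / (M * L * q)) ≤ 2 * (B * (1 + |(j : ℝ)| / (M * L * q))) := by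
      have : 2 * |(j : ℝ)| / (M * L * q) = 2 * (|(j : ℝ)| / (M * L * q)) := by ring
      rw [this]
      nlinarith
    rw [e1]
    calc C * (2 ^ ε * ((M : ℝ) * L * q * |(j : ℝ)|) ^ ε) * (B * (1 + 2 * |(j : ℝ)| / (M * L * q))) *
        ((q : ℝ) ^ 2 * (M : ℝ) ^ (3 / 4 : ℝ) * Real.sqrt L * Real.sqrt (Nat.gcd L j.natAbs)) ≤
        C * (2 ^ ε * ((M : ℝ) * L * q * |(j : ℝ)|) ^ ε) * (2 * (B * (1 + |(j : ℝ)| / (M * L * q)))) *
        ((q : ℝ) ^ 2 * (M : ℝ) ^ (3 / 4 : ℝ) * Real.sqrt L * Real.sqrt (Nat.gcd L j.natAbs)) := by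
          gcongr
      _ = _ := by ring

end Pool.Agent.T2h76R
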