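import Pool.Agent.T2h76R.Mt15

/-! Clusters in a residue class. -/

set_option autoImplicit false

namespace Pool.Agent.T2h76Q.MT.E

open Pool.Agent.T2h76R (HasWeylE)
open Finset Filter Polynomial

/-- `n ≠ 0` has at most `r` prime factors, all at least `w` -/
def AP (r : ℕ) (w : ℝ) (n : ℤ) : Prop :=
  n ≠ 0 ∧ n.natAbs.primeFactorsList.length ≤ r ∧ ∀ q : ℕ, q.Prime → (q : ℤ) ∣ n → w ≤ q

theorem fam {Dq : ℤ} {q₀ : ℕ} (hWe : HasWeylE Dq q₀) (hD4 : |Dq| ≤ 4) (f : ℤ[X]) (hf : f ≠ 0)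
    (Qc : ℕ) (hQc : 1 ≤ Qc) (hq0c : q₀ ∣ Qc) (uc : ℕ) (huQ : uc < Qc)
    (huc : ∀ p : ℕ, p.Prime → p ∣ Qc → ¬ (p : ℤ) ∣ ((uc : ℤ) ^ 2 - Dq) * f.eval (uc : ℤ))
    (hadm : ∀ p : ℕ, p.Prime → ¬ p ∣ Qc → ∃ n : ℤ, ¬ (p : ℤ) ∣ (n ^ 2 - Dq) * f.eval n)
    (m : ℕ) (hm : 1 ≤ m) :
    ∃ K : ℕ, ∀ S : Finset ℕ, K ≤ S.card → ∃ (r : ℕ) (δ : ℝ), 0 < δ ∧ ∀ l : ℕ, ∃ B : ℕ,
      ∀ᶠ N : ℕ in atTop, ∃ H ⊆ S, H.card = m ∧ ∃ n d : ℕ, 1 ≤ d ∧ (d : ℝ) ≤ Real.log N ^ B ∧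
      ∀ j < l, N < n + j * d ∧ ((n + j * d : ℕ) : ℝ) ≤ N + (N : ℝ) ^ (999 / 1000 : ℝ) ∧
        ∀ h ∈ H, AP 2 ((N : ℝ) ^ (6 / 25 : ℝ)) (((Qc * (n + j * d + h) + uc : ℕ) : ℤ) ^ 2 - Dq) ∧
          AP r ((N : ℝ) ^ δ) (f.eval ((Qc * (n + j * d + h) + uc : ℕ) : ℤ)) := by
  obtain ⟨K, hK⟩ := sys2 hWe hD4 f hf Qc hQc hq0c uc huc hadm m
  obtain ⟨n₀, hn₀⟩ := Pool.Agent.Y677.RSZ.ne_zero_ev f hf
  refine ⟨K, fun S hS => ?_⟩
  have hinj : Function.Injective (fun h : ℕ => Qc * h) := fun a b hab =>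
    Nat.eq_of_mul_eq_mul_left hQc hab
  obtain ⟨r, δ, hδ, hmain⟩ := hK (S.image (fun h => Qc * h)) (by
    rw [card_image_of_injective _ hinj]
    exact hS)
  refine ⟨r, δ, hδ, fun l => ?_⟩
  obtain ⟨B, hB⟩ := hmain (l + 2)
  refine ⟨2 * B, ?_⟩
  have hlim : Tendsto (fun N : ℕ => Qc * N) atTop atTop :=
    tendsto_id.const_mul_atTop' hQc
  have hB' := hlim.eventually hB
  have hT := tendsto_natCast_atTop_atTop (R := ℝ)
  have hTL := Real.tendsto_log_atTop.comp hT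
  have hlog : ∀ᶠ N : ℕ in atTop, 2 + Real.log Qc ≤ Real.log (N : ℝ) := hTL.eventually_ge_atTop _
  filter_upwards [hB', hlog, eventually_ge_atTop (n₀ + 1)] with N hN hlN hN2
  obtain ⟨H, hH, hHc, n', d', h1, h2, h3⟩ := hN
  have hN1 : (1 : ℝ) ≤ N := by exact_mod_cast (by omega : 1 ≤ N)
  have hN0 : (0 : ℝ) < N := by linarith
  have hQr : (1 : ℝ) ≤ Qc := by exact_mod_cast hQc
  have hQ0 : (0 : ℝ) < Qc := by linarith
  -- the shifts
  obtain ⟨H', hH', hHH⟩ : ∃ H' : Finset ℕ, H' ⊆ S ∧ H = H'.image (fun h => Qc * h) := by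
    refine ⟨S.filter (fun h => Qc * h ∈ H), filter_subset _ _, ?_⟩
    ext x
    rw [mem_image]
    constructor
    · intro hx
      obtain ⟨h, hh, rfl⟩ := mem_image.1 (hH hx)
      exact ⟨h, mem_filter.2 ⟨hh, hx⟩, rfl⟩
    · rintro ⟨h, hh, rfl⟩
      exact (mem_filter.1 hh).2
  have hH'c : H'.card = m := by
    rw [hHH, card_image_of_injective _ hinj] at hHc
    exact hHc
  obtain ⟨h₀, hh₀⟩ : H'.Nonempty := by
    rw [← card_pos, hH'c]
    omega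
  -- the class of the terms
  have hcl : ∀ j < l + 2, ∃ y : ℕ, n' + j * d' = Qc * y + uc := by
    intro j hj
    obtain ⟨g1, g2, g3⟩ := h3 j hj
    have hmem : Qc * h₀ ∈ H := by
      rw [hHH]
      exact mem_image_of_mem _ hh₀
    obtain ⟨g4, -⟩ := g3 (Qc * h₀) hmem
    have g5 : (Qc : ℤ) ∣ ((n' + j * d' : ℕ) : ℤ) - uc := by
      have e : ((n' + j * d' : ℕ) : ℤ) - uc = (((n' + j * d' + Qc * h₀ : ℕ) : ℤ) - uc) - (Qc : ℤ) * h₀ := by
        push_cast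
        ring
      rw [e]
      exact dvd_sub g4 (dvd_mul_right _ _)
    have g6 : uc ≤ n' + j * d' := by
      have : Qc * 1 ≤ Qc * N := Nat.mul_le_mul_left _ (by omega)
      omega
    obtain ⟨y, hy⟩ := g5
    have hy0 : 0 ≤ y := by
      by_contra hneg
      push Not at hneg
      have : (Qc : ℤ) * y < 0 := mul_neg_of_pos_of_neg (by exact_mod_cast hQc) hneg
      omega
    obtain ⟨y', rfl⟩ := Int.eq_ofNat_of_zero_le hy0
    refine ⟨y', ?_⟩
    have : ((n' + j * d' : ℕ) : ℤ) = ((Qc * y' + uc : ℕ) : ℤ) := by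
      push_cast at hy ⊢
      linarith
    exact_mod_cast this
  obtain ⟨y0, hy0⟩ := hcl 0 (by omega)
  obtain ⟨y1, hy1⟩ := hcl 1 (by omega)
  rw [zero_mul, add_zero] at hy0
  rw [one_mul] at hy1
  have hy01 : y0 ≤ y1 := by
    by_contra hcon
    push Not at hcon
    have : Qc * (y1 + 1) ≤ Qc * y0 := Nat.mul_le_mul_left _ hcon
    have e : Qc * (y1 + 1) = Qc * y1 + Qc := by ring
    omega
  obtain ⟨d, hd⟩ : ∃ d, y1 = y0 + d := ⟨y1 - y0, by omega⟩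
  have hd' : d' = Qc * d := by
    have e : Qc * (y0 + d) = Qc * y0 + Qc * d := by ring
    rw [hd] at hy1
    omega
  have hd1 : 1 ≤ d := by
    rcases Nat.eq_zero_or_pos d with h0 | h0
    · rw [h0] at hd'
      omega
    · exact h0
  have hy0N : N ≤ y0 := by
    by_contra hcon
    push Not at hcon
    have h4 := (h3 0 (by omega)).1
    rw [zero_mul, add_zero, hy0] at h4
    have : Qc * (y0 + 1) ≤ Qc * N := Nat.mul_le_mul_left _ hcon
    have e : Qc * (y0 + 1) = Qc * y0 + Qc := by ring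
    omega
  refine ⟨H', hH', hH'c, y0 + d, d, hd1, ?_, ?_⟩
  · -- the difference
    have h4 : (d : ℝ) ≤ d' := by
      have : d ≤ d' := by
        rw [hd']
        exact Nat.le_mul_of_pos_left _ hQc
      exact_mod_cast this
    refine h4.trans (h2.trans ?_)
    rw [pow_mul]
    have hlQ : 0 ≤ Real.log Qc := Real.log_nonneg hQr
    have e : Real.log ((Qc * N : ℕ) : ℝ) = Real.log Qc + Real.log N := by
      push_cast
      exact Real.log_mul hQ0.ne' hN0.ne'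
    rw [e]
    apply pow_le_pow_left₀ (by linarith)
    nlinarith
  · intro j hj
    have ej : n' + (j + 1) * d' = Qc * (y0 + d + j * d) + uc := by
      rw [hy0, hd']
      ring
    obtain ⟨g1, g2, g3⟩ := h3 (j + 1) (by omega)
    rw [ej] at g1 g2
    refine ⟨by omega, ?_, ?_⟩
    · push_cast at g2 ⊢
      have h5 : ((Qc : ℝ) * N) ^ (999 / 1000 : ℝ) ≤ Qc * (N : ℝ) ^ (999 / 1000 : ℝ) := by
        rw [Real.mul_rpow hQ0.le hN0.le]
        apply mul_le_mul_of_nonneg_right _ (by positivity)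
        calc (Qc : ℝ) ^ (999 / 1000 : ℝ) ≤ (Qc : ℝ) ^ (1 : ℝ) :=
              Real.rpow_le_rpow_of_exponent_le hQr (by norm_num)
          _ = Qc := Real.rpow_one _
      have h6 : (0 : ℝ) ≤ uc := Nat.cast_nonneg _
      have h7 : (Qc : ℝ) * ((y0 : ℝ) + d + j * d) ≤ Qc * (N + (N : ℝ) ^ (999 / 1000 : ℝ)) := by
        linarith
      exact le_of_mul_le_mul_left h7 hQ0
    · intro h hh
      obtain ⟨g4, g5, g6, g7, g8⟩ := g3 (Qc * h) (by
        rw [hHH]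
        exact mem_image_of_mem _ hh)
      have eh : n' + (j + 1) * d' + Qc * h = Qc * (y0 + d + j * d + h) + uc := by
        rw [ej]
        ring
      rw [eh] at g4 g5 g6 g7 g8
      have hNQ : (N : ℝ) ≤ ((Qc * N : ℕ) : ℝ) := by
        have : N ≤ Qc * N := Nat.le_mul_of_pos_left _ hQc
        exact_mod_cast this
      refine ⟨⟨?_, g5, fun p hp hpd => ?_⟩, hn₀ _ ?_, g7, fun p hp hpd => ?_⟩
      · intro h0
        exact hWe.nsq ⟨((Qc * (y0 + d + j * d + h) + uc : ℕ) : ℤ), by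
          linarith [pow_two (((Qc * (y0 + d + j * d + h) + uc : ℕ) : ℤ))]⟩
      · refine le_trans ?_ (g6 p hp hpd)
        exact Real.rpow_le_rpow hN0.le hNQ (by norm_num)
      · have h5 : y0 + d + j * d + h ≤ Qc * (y0 + d + j * d + h) := Nat.le_mul_of_pos_left _ hQc
        omega
      · refine le_trans ?_ (g8 p hp hpd)
        exact Real.rpow_le_rpow hN0.le hNQ hδ.le

end Pool.Agent.T2h76Q.MT.E
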