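import Pool.Agent.T2h76Q.Rm4
import Pool.Agent.T2h76R.Bi4
/-! The power saving for one dyadic block. -/

set_option autoImplicit false

namespace Pool.Agent.T2h76Q.E

open Pool.Agent.T2h76R (HasWeylE)
open Finset
open Pool.Agent.T2h76 (TT trz C0 C0_nonneg exp_small TT_zero)

variable {D : ℤ} {q₀ : ℕ}

theorem sb_bd (hw : HasWeylE D q₀) (δ σ : ℝ) (hδ : 0 < δ) (hδ1 : δ ≤ 1 / 12) (hσ : 0 ≤ σ) : ∃ C : ℝ, 0 < C ∧
    ∀ (Y N0 : ℝ) (M K q R : ℕ) (Θ : ℤ) (a b : ℕ → ℝ) (𝒦 : Finset ℕ), 1 ≤ Y → 1 ≤ M → 1 ≤ K →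
    1 ≤ q → q₀ ∣ q → 1 ≤ R → Nat.Coprime R q → (R : ℤ) ∣ Θ ^ 2 - D →
    (∀ k ∈ 𝒦, Squarefree k ∧ k ∣ R ∧ K ≤ k ∧ k ≤ 2 * K) →
    (∀ m, |a m| ≤ 1) → (∀ k, |b k| ≤ 1) → |N0| ≤ Y ^ (1 + σ) → (q : ℝ) ≤ Y ^ (δ / 24) →
    (M : ℝ) ≤ Y ^ (1 - δ) → (K : ℝ) ≤ Y ^ (1 / 12 - σ / 3 - δ) →
    |SB D Y N0 M q Θ a b 𝒦| ≤ C * Y ^ (1 - δ / 6) := by
  set ε : ℝ := δ / 24 with hε
  have hε0 : 0 < ε := by positivity
  obtain ⟨C1, hC1, HB⟩ := block hw ε hε0
  obtain ⟨Cd, hCd0, hCd⟩ := hw.card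
  obtain ⟨C3, hC3, hD⟩ := Pool.Agent.H510R2.divisor_bound ε hε0
  set n0 : ℕ := ⌈1 / ε⌉₊ with hn0
  have hC0 := C0_nonneg
  refine ⟨Real.sqrt (32 * Cd * C1 * C3 ^ 2 * 404) + 32 * Cd * C0 * n0.factorial + 1, by positivity, ?_⟩
  intro Y N0 M K q R Θ a b 𝒦 hY hM hK hq hq0 hR hRq hΘ h𝒦 ha hb hN0 hqY hMY hKY
  have hY0 : 0 < Y := by linarith
  have hMr : (1 : ℝ) ≤ M := by exact_mod_cast hM
  have hKr : (1 : ℝ) ≤ K := by exact_mod_cast hK
  have hqr : (1 : ℝ) ≤ q := by exact_mod_cast hq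
  set P : ℝ := Y ^ ε with hP
  have hP1 : 1 ≤ P := Real.one_le_rpow hY hε0.le
  have hP0 : 0 < P := by linarith
  have hPn : ∀ n : ℕ, P ^ n = Y ^ (ε * n) := by
    intro n
    rw [hP, ← Real.rpow_natCast, ← Real.rpow_mul hY0.le]
  have hfin : Y ^ (1 - δ / 6) = Y / P ^ 4 := by
    rw [hPn 4, eq_div_iff (by positivity), ← Real.rpow_add hY0]
    have : 1 - δ / 6 + ε * (4 : ℕ) = 1 := by rw [hε]; push_cast; ring
    rw [this, Real.rpow_one]
  have hM' : (M : ℝ) * P ^ 24 ≤ Y := by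
    calc (M : ℝ) * P ^ 24 ≤ Y ^ (1 - δ) * P ^ 24 := by gcongr
      _ = Y := by
        rw [hPn 24, ← Real.rpow_add hY0]
        have : 1 - δ + ε * (24 : ℕ) = 1 := by rw [hε]; push_cast; ring
        rw [this, Real.rpow_one]
  have hMYY : (M : ℝ) ≤ Y := by
    have : (1 : ℝ) ≤ P ^ 24 := one_le_pow₀ hP1
    nlinarith
  have hKY1 : (K : ℝ) ≤ Y ^ (1 / 12 : ℝ) := hKY.trans (Real.rpow_le_rpow_of_exponent_le hY (by linarith))
  have hKn : ∀ n : ℕ, (K : ℝ) ^ n ≤ Y ^ ((n : ℝ) / 12) := by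
    intro n
    calc (K : ℝ) ^ n ≤ (Y ^ (1 / 12 : ℝ)) ^ n := by gcongr
      _ = _ := by
        rw [← Real.rpow_natCast, ← Real.rpow_mul hY0.le]
        congr 1
        ring
  have hKY2 : (K : ℝ) ≤ Y := by
    calc (K : ℝ) ≤ Y ^ (1 / 12 : ℝ) := hKY1
      _ ≤ Y ^ (1 : ℝ) := Real.rpow_le_rpow_of_exponent_le hY (by norm_num)
      _ = Y := Real.rpow_one Y
  have hK3q : (K : ℝ) ^ 3 * q ≤ Y := by
    calc (K : ℝ) ^ 3 * q ≤ Y ^ (((3 : ℕ) : ℝ) / 12) * Y ^ (δ / 24) := by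
          apply mul_le_mul (hKn 3) hqY (by positivity) (by positivity)
      _ = Y ^ (((3 : ℕ) : ℝ) / 12 + δ / 24) := (Real.rpow_add hY0 _ _).symm
      _ ≤ Y ^ (1 : ℝ) := by
        apply Real.rpow_le_rpow_of_exponent_le hY
        push_cast
        linarith
      _ = Y := Real.rpow_one Y
  have hqP : (q : ℝ) ≤ P := hqY
  have hK2 : (K : ℝ) ^ 2 * q ^ 2 * P ≤ Y := by
    calc (K : ℝ) ^ 2 * q ^ 2 * P ≤ Y ^ (((2 : ℕ) : ℝ) / 12) * P ^ 2 * P := by
          gcongr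
          exact hKn 2
      _ = Y ^ (((2 : ℕ) : ℝ) / 12) * P ^ 3 := by ring
      _ = Y ^ (((2 : ℕ) : ℝ) / 12 + ε * (3 : ℕ)) := by
        rw [hPn 3]
        exact (Real.rpow_add hY0 _ _).symm
      _ ≤ Y ^ (1 : ℝ) := by
        apply Real.rpow_le_rpow_of_exponent_le hY
        push_cast
        rw [hε]
        linarith
      _ = Y := Real.rpow_one Y
  have hK32 : (Y ^ (σ / 2) * ((K : ℝ) ^ (3 / 2 : ℝ)) * (M : ℝ) ^ (7 / 8 : ℝ)) * P ^ 57 ≤ Y := by
    have h1 : (K : ℝ) ^ (3 / 2 : ℝ) ≤ Y ^ ((1 / 12 - σ / 3 - δ) * (3 / 2)) := by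
      rw [Real.rpow_mul hY0.le]
      exact Real.rpow_le_rpow (by positivity) hKY (by norm_num)
    have h2 : (M : ℝ) ^ (7 / 8 : ℝ) ≤ Y ^ ((1 - δ) * (7 / 8)) := by
      rw [Real.rpow_mul hY0.le]
      exact Real.rpow_le_rpow (by positivity) hMY (by norm_num)
    calc (Y ^ (σ / 2) * ((K : ℝ) ^ (3 / 2 : ℝ)) * (M : ℝ) ^ (7 / 8 : ℝ)) * P ^ 57 ≤
        (Y ^ (σ / 2) * Y ^ ((1 / 12 - σ / 3 - δ) * (3 / 2)) * Y ^ ((1 - δ) * (7 / 8))) * P ^ 57 := by
          gcongr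
      _ = Y ^ (1 : ℝ) := by
        rw [hPn 57, ← Real.rpow_add hY0, ← Real.rpow_add hY0, ← Real.rpow_add hY0]
        congr 1
        rw [hε]
        push_cast
        ring
      _ = Y := Real.rpow_one Y
  -- replace b by its restriction
  set b' : ℕ → ℝ := fun k => if k ∈ 𝒦 then b k else 0 with hb'
  have hSB : SB D Y N0 M q Θ a b 𝒦 = SB D Y N0 M q Θ a b' 𝒦 := by
    unfold SB
    apply Finset.sum_congr rfl
    intro m _
    congr 1
    apply Finset.sum_congr rfl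
    intro ν _
    apply Finset.sum_congr rfl
    intro k hk
    simp only [hb', if_pos hk]
  rw [hSB]
  have hb'1 : ∀ k, |b' k| ≤ 1 := by
    intro k
    simp only [hb']
    split_ifs
    · exact hb k
    · simp
  set X : ℝ := 4 * M * K * q * P / Y with hX
  have hX0 : 0 < X := by positivity
  set H : ℕ := ⌊X⌋₊ with hH
  have hHX : (H : ℝ) ≤ X := Nat.floor_le hX0.le
  have hHX1 : X < (H : ℝ) + 1 := Nat.lt_floor_add_one X
  have hblk := blk_approx Cd hCd0 hCd Y N0 hY0 M K H q Θ a b' 𝒦 hM hK hq (fun k hk => ⟨(h𝒦 k hk).1, (h𝒦 k hk).2.2⟩)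
    ha hb'1
  set β : ℕ → ℝ := fun k => b' k * (Rt D k).card * (K / k) with hβ
  -- the error term
  have herr : 8 * Cd * M * K ^ 2 * (C0 * (4 * M * K * q / Y) *
        Real.exp (-(((H + 1 : ℕ) : ℝ) * (Y / (4 * M * K * q))) ^ 2)) ≤ 32 * Cd * C0 * n0.factorial := by
    have h1 : P ≤ ((H + 1 : ℕ) : ℝ) * (Y / (4 * M * K * q)) := by
      push_cast
      have : P = X * (Y / (4 * M * K * q)) := by
        rw [hX]
        field_simp
      rw [this]
      gcongr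
    have h2 : Real.exp (-(((H + 1 : ℕ) : ℝ) * (Y / (4 * M * K * q))) ^ 2) ≤ n0.factorial / Y ^ 2 := by
      calc Real.exp (-(((H + 1 : ℕ) : ℝ) * (Y / (4 * M * K * q))) ^ 2) ≤ Real.exp (-(P ^ 2)) := by
            rw [Real.exp_le_exp, neg_le_neg_iff]
            exact pow_le_pow_left₀ hP0.le h1 2
        _ ≤ n0.factorial / (P ^ 2) ^ n0 := exp_small n0 (P ^ 2) (by positivity)
        _ ≤ n0.factorial / Y ^ 2 := by
          apply div_le_div_of_nonneg_left (by positivity) (by positivity)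
          have h3 : Y ≤ P ^ n0 := by
            rw [hPn n0]
            calc Y = Y ^ (1 : ℝ) := (Real.rpow_one Y).symm
              _ ≤ Y ^ (ε * n0) := by
                apply Real.rpow_le_rpow_of_exponent_le hY
                have h4 : 1 / ε ≤ n0 := Nat.le_ceil _
                rw [div_le_iff₀ hε0] at h4
                linarith
          calc Y ^ 2 ≤ (P ^ n0) ^ 2 := by gcongr
            _ = (P ^ 2) ^ n0 := by rw [← pow_mul, ← pow_mul, mul_comm]
    have h5 : (M : ℝ) * K ^ 2 * (M * K * q) ≤ Y ^ 3 := by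
      calc (M : ℝ) * K ^ 2 * (M * K * q) = M * M * (K ^ 3 * q) := by ring
        _ ≤ Y * Y * Y := by gcongr
        _ = Y ^ 3 := by ring
    calc 8 * Cd * M * K ^ 2 * (C0 * (4 * M * K * q / Y) *
        Real.exp (-(((H + 1 : ℕ) : ℝ) * (Y / (4 * M * K * q))) ^ 2)) ≤
        8 * Cd * M * K ^ 2 * (C0 * (4 * M * K * q / Y) * (n0.factorial / Y ^ 2)) := by gcongr
      _ = 32 * Cd * C0 * n0.factorial * ((M : ℝ) * K ^ 2 * (M * K * q) / Y ^ 3) := by
        field_simp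
        ring
      _ ≤ 32 * Cd * C0 * n0.factorial * 1 := by
        gcongr
        rw [div_le_one (by positivity)]
        exact h5
      _ = _ := mul_one _
  have hfin1 : 1 ≤ Y ^ (1 - δ / 6) := Real.one_le_rpow hY (by linarith)
  -- the main term
  have hmain : Y / (q * K * M) * (∑ m ∈ Ico M (2 * M), ∑ ν ∈ Rt D m, ‖TT Y N0 q Θ β 𝒦 H m ν‖) ≤
      Real.sqrt (32 * Cd * C1 * C3 ^ 2 * 404) * Y ^ (1 - δ / 6) := by
    rcases Nat.eq_zero_or_pos H with h0 | hpos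
    · rw [h0]
      have : ∑ m ∈ Ico M (2 * M), ∑ ν ∈ Rt D m, ‖TT Y N0 q Θ β 𝒦 0 m ν‖ = 0 := by
        apply Finset.sum_eq_zero
        intro m _
        apply Finset.sum_eq_zero
        intro ν _
        rw [TT_zero, norm_zero]
      rw [this, mul_zero]
      positivity
    have hHr : (1 : ℝ) ≤ H := by exact_mod_cast hpos
    set B1 : ℝ := C3 * (2 * P) with hB1
    have hβ1 : ∀ k, |β k| ≤ B1 := by
      intro k
      simp only [hβ, hb']
      split_ifs with hk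
      · obtain ⟨k1, k2, k3, k4⟩ := h𝒦 k hk
        have hk1 : 1 ≤ k := hK.trans k3
        have hkr : (0 : ℝ) < k := by exact_mod_cast hk1
        rw [abs_mul, abs_mul]
        have h1 : |((Rt D k).card : ℝ)| ≤ C3 * (2 * P) := by
          rw [abs_of_nonneg (by positivity)]
          calc ((Rt D k).card : ℝ) ≤ (k.divisors.card : ℝ) := by exact_mod_cast card_le_div (D := D) k k1
            _ ≤ C3 * (k : ℝ) ^ ε := hD k hk1
            _ ≤ C3 * (2 * P) := by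
              gcongr
              calc (k : ℝ) ^ ε ≤ (2 * K) ^ ε := by
                    apply Real.rpow_le_rpow hkr.le _ hε0.le
                    exact_mod_cast k4
                _ = 2 ^ ε * (K : ℝ) ^ ε := Real.mul_rpow (by norm_num) (by positivity)
                _ ≤ 2 * P := by
                  apply mul_le_mul
                  · calc (2 : ℝ) ^ ε ≤ 2 ^ (1 : ℝ) := by
                          apply Real.rpow_le_rpow_of_exponent_le (by norm_num)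
                          rw [hε]
                          linarith
                      _ = 2 := Real.rpow_one 2
                  · exact Real.rpow_le_rpow (by positivity) hKY2 hε0.le
                  · positivity
                  · norm_num
        have h2 : |(K : ℝ) / k| ≤ 1 := by
          rw [abs_of_nonneg (by positivity), div_le_one hkr]
          exact_mod_cast k3
        calc |b k| * |((Rt D k).card : ℝ)| * |(K : ℝ) / k| ≤ 1 * (C3 * (2 * P)) * 1 := by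
              apply mul_le_mul _ h2 (abs_nonneg _) (by positivity)
              exact mul_le_mul (hb k) h1 (abs_nonneg _) zero_le_one
          _ = _ := by ring
      · simp
        positivity
    have hB := HB Y N0 M K H q R Θ β B1 𝒦 hM hK hpos hq hq0 hR hRq hΘ
      (fun k hk => ⟨(h𝒦 k hk).2.1, (h𝒦 k hk).2.2⟩) (by positivity) hβ1
    have hc := cauchy_T Cd hCd0 hCd Y N0 M H q Θ β 𝒦 hM
    have hpw : ((M : ℝ) * K * H * q) ^ ε ≤ 4 * P ^ 2 := by
      have h1 : (M : ℝ) * K * H * q ≤ 4 * Y ^ 2 := by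
        calc (M : ℝ) * K * H * q ≤ (M : ℝ) * K * X * q := by gcongr
          _ = 4 * (M * M * (K ^ 2 * q ^ 2 * P)) / Y := by
            rw [hX]
            field_simp
          _ ≤ 4 * (Y * Y * Y) / Y := by gcongr
          _ = 4 * Y ^ 2 := by field_simp
      calc ((M : ℝ) * K * H * q) ^ ε ≤ (4 * Y ^ 2) ^ ε := Real.rpow_le_rpow (by positivity) h1 hε0.le
        _ = 4 ^ ε * (Y ^ 2) ^ ε := Real.mul_rpow (by norm_num) (by positivity)
        _ ≤ 4 * P ^ 2 := by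
          have h2 : (4 : ℝ) ^ ε ≤ 4 := by
            calc (4 : ℝ) ^ ε ≤ 4 ^ (1 : ℝ) := by
                    apply Real.rpow_le_rpow_of_exponent_le (by norm_num)
                    rw [hε]
                    linarith
              _ = 4 := Real.rpow_one 4
          have h3 : (Y ^ 2) ^ ε = P ^ 2 := by
            rw [hP, ← Real.rpow_natCast, ← Real.rpow_natCast, ← Real.rpow_mul hY0.le,
              ← Real.rpow_mul hY0.le, mul_comm]
          rw [h3]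
          gcongr
    have hf1 : 1 + H * |N0| / (K * M * q) ≤ 5 * (Y ^ σ * P) := by
      have h1 : H * |N0| / (K * M * q) ≤ 4 * (Y ^ σ * P) := by
        calc H * |N0| / (K * M * q) ≤ X * Y ^ (1 + σ) / (K * M * q) := by gcongr
          _ = 4 * (Y ^ σ * P) := by
            rw [hX, Real.rpow_add hY0, Real.rpow_one]
            field_simp
      have h2 : 1 ≤ Y ^ σ := Real.one_le_rpow hY hσ
      have h3 : 1 ≤ Y ^ σ * P := one_le_mul_of_one_le_of_one_le h2 hP1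
      linarith
    have hPY : P ≤ Y := by
      calc P ≤ Y ^ (1 : ℝ) := by
            rw [hP]
            apply Real.rpow_le_rpow_of_exponent_le hY
            rw [hε]
            linarith
        _ = Y := Real.rpow_one Y
    have hf2 : (1 : ℝ) + H / (K * M * q) ≤ 5 := by
      have h1 : H / ((K : ℝ) * M * q) ≤ 4 := by
        calc H / ((K : ℝ) * M * q) ≤ X / (K * M * q) := by gcongr
          _ = 4 * (P / Y) := by
            rw [hX]
            field_simp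
          _ ≤ 4 * 1 := by
            gcongr
            rw [div_le_one hY0]
            exact hPY
          _ = 4 := by norm_num
      linarith
    set bl : ℝ := ∑ m ∈ Icc 1 (3 * M), ∑ ν ∈ Rt D m, trz M m * ‖TT Y N0 q Θ β 𝒦 H m ν‖ ^ 2 with hbl
    have hbl1 : bl ≤ C1 * (4 * P ^ 2) * B1 ^ 2 * ((M : ℝ) * K * H +
        (5 * (Y ^ σ * P)) * 5 * ((q : ℝ) ^ 2 * (M : ℝ) ^ (3 / 4 : ℝ) * (K : ℝ) ^ 3 * (H : ℝ) ^ 2)) := by
      refine hB.trans ?_
      gcongr
    have hfinal : (Y / (q * K * M)) ^ 2 * (2 * Cd * M * bl) ≤ (32 * Cd * C1 * C3 ^ 2 * 404) * (Y / P ^ 4) ^ 2 := by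
      have h1 : (Y / (q * K * M)) ^ 2 * (2 * Cd * M * bl) ≤ (Y / (q * K * M)) ^ 2 * (2 * Cd * M * (
          C1 * (4 * P ^ 2) * B1 ^ 2 * ((M : ℝ) * K * H +
        (5 * (Y ^ σ * P)) * 5 * ((q : ℝ) ^ 2 * (M : ℝ) ^ (3 / 4 : ℝ) * (K : ℝ) ^ 3 * (H : ℝ) ^ 2)))) := by
        gcongr
      refine h1.trans ?_
      have h2 : (Y / (q * K * M)) ^ 2 * (2 * Cd * M * (
          C1 * (4 * P ^ 2) * B1 ^ 2 * ((M : ℝ) * K * H +
        (5 * (Y ^ σ * P)) * 5 * ((q : ℝ) ^ 2 * (M : ℝ) ^ (3 / 4 : ℝ) * (K : ℝ) ^ 3 * (H : ℝ) ^ 2)))) =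
        32 * Cd * C1 * C3 ^ 2 * (P ^ 4 * (Y ^ 2 * H / (q ^ 2 * K)) +
          25 * (P ^ 5 * (Y ^ 2 * Y ^ σ * K * (M : ℝ) ^ (3 / 4 : ℝ) * (H : ℝ) ^ 2 / M))) := by
        rw [hB1]
        field_simp
        ring
      rw [h2]
      have h3 : P ^ 4 * (Y ^ 2 * H / (q ^ 2 * K)) ≤ 4 * (Y / P ^ 4) ^ 2 := by
        calc P ^ 4 * (Y ^ 2 * H / (q ^ 2 * K)) ≤ P ^ 4 * (Y ^ 2 * X / (q ^ 2 * K)) := by gcongr
          _ = 4 * (P ^ 5 * Y * M / q) := by
            rw [hX]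
            field_simp
          _ ≤ 4 * (P ^ 5 * Y * M / 1) := by gcongr
          _ = 4 * (P ^ 5 * Y * (M * P ^ 24) / P ^ 24) := by
            field_simp
          _ ≤ 4 * (P ^ 5 * Y * Y / P ^ 24) := by gcongr
          _ = 4 * (Y ^ 2 / P ^ 19) := by field_simp
          _ ≤ 4 * (Y ^ 2 / P ^ 8) := by
            gcongr
            norm_num
          _ = _ := by
            rw [div_pow]
            ring
      have h4 : P ^ 5 * (Y ^ 2 * Y ^ σ * K * (M : ℝ) ^ (3 / 4 : ℝ) * (H : ℝ) ^ 2 / M) ≤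
          16 * (Y / P ^ 4) ^ 2 := by
        have h5 : (Y ^ (σ / 2) * ((K : ℝ) ^ (3 / 2 : ℝ)) * (M : ℝ) ^ (7 / 8 : ℝ)) ^ 2 =
            Y ^ σ * (K : ℝ) ^ 3 * ((M : ℝ) ^ (3 / 4 : ℝ) * M) := by
          have a1 : (Y ^ (σ / 2)) ^ 2 = Y ^ σ := by
            rw [← Real.rpow_natCast, ← Real.rpow_mul hY0.le]
            congr 1
            push_cast
            ring
          have a2 : ((K : ℝ) ^ (3 / 2 : ℝ)) ^ 2 = (K : ℝ) ^ 3 := by
            rw [← Real.rpow_natCast, ← Real.rpow_natCast, ← Real.rpow_mul (by positivity)]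
            congr 1
            push_cast
            ring
          have a3 : ((M : ℝ) ^ (7 / 8 : ℝ)) ^ 2 = (M : ℝ) ^ (3 / 4 : ℝ) * M := by
            rw [← Real.rpow_natCast, ← Real.rpow_mul (by positivity)]
            have : (M : ℝ) ^ (3 / 4 : ℝ) * M = (M : ℝ) ^ (3 / 4 : ℝ) * (M : ℝ) ^ (1 : ℝ) := by
              rw [Real.rpow_one]
            rw [this, ← Real.rpow_add (by linarith)]
            congr 1
            push_cast
            ring
          rw [mul_pow, mul_pow, a1, a2, a3]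
        set Z : ℝ := Y ^ (σ / 2) * ((K : ℝ) ^ (3 / 2 : ℝ)) * (M : ℝ) ^ (7 / 8 : ℝ) with hZ
        have hZ0 : 0 ≤ Z := by positivity
        have hZ1 : Z ≤ Y / P ^ 57 := by
          rw [le_div_iff₀ (by positivity)]
          exact hK32
        calc P ^ 5 * (Y ^ 2 * Y ^ σ * K * (M : ℝ) ^ (3 / 4 : ℝ) * (H : ℝ) ^ 2 / M) ≤
            P ^ 5 * (Y ^ 2 * Y ^ σ * K * (M : ℝ) ^ (3 / 4 : ℝ) * X ^ 2 / M) := by gcongr
          _ = 16 * (P ^ 7 * q ^ 2 * (Y ^ σ * (K : ℝ) ^ 3 * ((M : ℝ) ^ (3 / 4 : ℝ) * M))) := by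
            rw [hX]
            field_simp
            ring
          _ = 16 * (P ^ 7 * q ^ 2 * Z ^ 2) := by rw [h5]
          _ ≤ 16 * (P ^ 7 * P ^ 2 * (Y / P ^ 57) ^ 2) := by gcongr
          _ = 16 * (Y ^ 2 / P ^ 105) := by
            field_simp
          _ ≤ 16 * (Y ^ 2 / P ^ 8) := by
            gcongr
            norm_num
          _ = _ := by
            rw [div_pow]
            ring
      have hcc : 0 ≤ 32 * Cd * C1 * C3 ^ 2 := by positivity
      calc 32 * Cd * C1 * C3 ^ 2 * (P ^ 4 * (Y ^ 2 * H / (q ^ 2 * K)) +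
          25 * (P ^ 5 * (Y ^ 2 * Y ^ σ * K * (M : ℝ) ^ (3 / 4 : ℝ) * (H : ℝ) ^ 2 / M))) ≤
          32 * Cd * C1 * C3 ^ 2 * (4 * (Y / P ^ 4) ^ 2 + 25 * (16 * (Y / P ^ 4) ^ 2)) := by
            apply mul_le_mul_of_nonneg_left _ hcc
            linarith
        _ = _ := by ring
    rw [hfin]
    calc Y / (q * K * M) * (∑ m ∈ Ico M (2 * M), ∑ ν ∈ Rt D m, ‖TT Y N0 q Θ β 𝒦 H m ν‖) ≤
        Y / (q * K * M) * Real.sqrt (2 * Cd * M * bl) := by gcongr
      _ = Real.sqrt ((Y / (q * K * M)) ^ 2 * (2 * Cd * M * bl)) := by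
        have hs := Real.sqrt_mul (by positivity : (0 : ℝ) ≤ (Y / (q * K * M)) ^ 2) (2 * Cd * M * bl)
        rw [hs, Real.sqrt_sq (by positivity)]
      _ ≤ Real.sqrt ((32 * Cd * C1 * C3 ^ 2 * 404) * (Y / P ^ 4) ^ 2) := Real.sqrt_le_sqrt hfinal
      _ = Real.sqrt (32 * Cd * C1 * C3 ^ 2 * 404) * (Y / P ^ 4) := by
        have hs := Real.sqrt_mul (by positivity : (0 : ℝ) ≤ 32 * Cd * C1 * C3 ^ 2 * 404) ((Y / P ^ 4) ^ 2)
        rw [hs, Real.sqrt_sq (by positivity)]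
  refine hblk.trans ?_
  refine (add_le_add hmain herr).trans ?_
  have h6 : 32 * Cd * C0 * n0.factorial ≤ (32 * Cd * C0 * n0.factorial) * Y ^ (1 - δ / 6) :=
    le_mul_of_one_le_right (by positivity) hfin1
  have h7 : (Real.sqrt (32 * Cd * C1 * C3 ^ 2 * 404) + 32 * Cd * C0 * n0.factorial + 1) * Y ^ (1 - δ / 6) =
      Real.sqrt (32 * Cd * C1 * C3 ^ 2 * 404) * Y ^ (1 - δ / 6) +
      (32 * Cd * C0 * n0.factorial) * Y ^ (1 - δ / 6) + Y ^ (1 - δ / 6) := by ring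
  rw [h7]
  linarith

end Pool.Agent.T2h76Q.E
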