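import Pool.Agent.T2h76Q.Rm5
import Pool.Agent.T2h76R.Rm4
/-! The bilinear level of distribution for the roots of `ν ^ 2 - D`. -/

set_option autoImplicit false

namespace Pool.Agent.T2h76Q.E

open Pool.Agent.T2h76R (HasWeylE)
open Finset
open Pool.Agent.T2h76 (crt crt_spec TT trz gw ps C0 C0_nonneg dyad dyad2 log_bd)

variable {D : ℤ} {q₀ : ℕ}

/-- one dyadic block of the bilinear form -/
theorem blk (hw : HasWeylE D q₀) (δ σ : ℝ) (hδ : 0 < δ) (hδ1 : δ ≤ 1 / 12) (hσ : 0 ≤ σ) : ∃ C : ℝ, 0 < C ∧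
    ∀ (Y N0 : ℝ) (M K q : ℕ) (u : ℤ) (a b : ℕ → ℝ), 1 ≤ Y → 1 ≤ M → 1 ≤ K → 1 ≤ q → q₀ ∣ q →
    (∀ m, |a m| ≤ 1) → (∀ k, |b k| ≤ 1) → (∀ k, b k ≠ 0 → Squarefree k ∧ Nat.Coprime k q) →
    |N0| ≤ Y ^ (1 + σ) → (q : ℝ) ≤ Y ^ (δ / 24) →
    (M : ℝ) ≤ Y ^ (1 - δ) → (K : ℝ) ≤ Y ^ (1 / 12 - σ / 3 - δ) →
    |∑ m ∈ Ico M (2 * M), ∑ k ∈ Ico K (2 * K), if Nat.Coprime m (k * q) then
      a m * (b k * rmd D Y N0 q u (m * k)) else 0| ≤ C * Y ^ (1 - δ / 6) := by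
  classical
  obtain ⟨C, hC, H⟩ := sb_bd hw δ σ hδ hδ1 hσ
  refine ⟨C, hC, ?_⟩
  intro Y N0 M K q u a b hY hM hK hq hq0 ha hb hbs hN0 hqY hMY hKY
  have hY0 : 0 < Y := by linarith
  set S : Finset ℕ := (range (2 * K)).filter (fun p => p.Prime ∧ (Rt D p).Nonempty ∧ ¬ p ∣ q) with hS
  have hSp : ∀ p ∈ S, p.Prime ∧ (Rt D p).Nonempty ∧ ¬ p ∣ q := fun p hp => (mem_filter.1 hp).2
  set R : ℕ := ∏ p ∈ S, p with hR
  have hR1 : 1 ≤ R := Finset.prod_pos fun p hp => (hSp p hp).1.pos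
  have hRne : (Rt D R).Nonempty := nonempty_prod S (fun p hp => ⟨(hSp p hp).1, (hSp p hp).2.1⟩)
  have hRq : Nat.Coprime R q := by
    rw [hR]
    apply Nat.Coprime.prod_left
    intro p hp
    exact (Nat.Prime.coprime_iff_not_dvd (hSp p hp).1).2 (hSp p hp).2.2
  have hRsq : Squarefree R := by
    rw [hR]
    apply Finset.squarefree_prod_of_pairwise_isCoprime
    · intro p hp p' hp' hne
      exact Nat.coprime_iff_isRelPrime.1 ((Nat.coprime_primes (hSp p hp).1 (hSp p' hp').1).2 hne)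
    · intro p hp
      exact (hSp p hp).1.squarefree
  set 𝒦 : Finset ℕ := (Ico K (2 * K)).filter (fun k => b k ≠ 0 ∧ (Rt D k).Nonempty) with h𝒦
  have h𝒦1 : ∀ k ∈ 𝒦, Squarefree k ∧ k ∣ R ∧ K ≤ k ∧ k ≤ 2 * K := by
    intro k hk
    rw [h𝒦, mem_filter, mem_Ico] at hk
    obtain ⟨⟨k1, k2⟩, k3, k4⟩ := hk
    obtain ⟨k5, k6⟩ := hbs k k3
    refine ⟨k5, ?_, k1, k2.le⟩
    rw [← Nat.prod_primeFactors_of_squarefree k5, hR]
    apply Finset.prod_dvd_prod_of_subset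
    intro p hp
    rw [hS, mem_filter, mem_range]
    have hpp := Nat.prime_of_mem_primeFactors hp
    have hpd := Nat.dvd_of_mem_primeFactors hp
    refine ⟨(Nat.le_of_dvd (hK.trans k1) hpd).trans_lt k2, hpp,
      nonempty_dvd (D := D) p k hpp.one_le hpd k4, ?_⟩
    intro hpq
    exact hpp.one_lt.ne' (Nat.eq_one_of_dvd_coprimes k6 hpd hpq)
  have hT : ∑ m ∈ Ico M (2 * M), ∑ k ∈ Ico K (2 * K), (if Nat.Coprime m (k * q) then
      a m * (b k * rmd D Y N0 q u (m * k)) else 0) =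
      ∑ m ∈ Ico M (2 * M), ∑ k ∈ 𝒦, (if Nat.Coprime m (k * q) then
      a m * (b k * rmd D Y N0 q u (m * k)) else 0) := by
    apply Finset.sum_congr rfl
    intro m hm
    rw [mem_Ico] at hm
    symm
    apply Finset.sum_subset (Finset.filter_subset _ _)
    intro k hk hk2
    rw [mem_Ico] at hk
    rw [mem_filter, mem_Ico, not_and] at hk2
    have h3 := hk2 hk
    rw [not_and_or, not_not] at h3
    split_ifs
    · rcases h3 with h3 | h3
      · rw [h3]; ring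
      · rw [rmd_zero Y N0 q u m k (hM.trans hm.1) (hK.trans hk.1) h3]; ring
    · rfl
  rw [hT]
  have havg : ((Rt D R).card : ℝ) * ∑ m ∈ Ico M (2 * M), ∑ k ∈ 𝒦, (if Nat.Coprime m (k * q) then
      a m * (b k * rmd D Y N0 q u (m * k)) else 0) =
      ∑ Θ ∈ Rt D R, SB D Y N0 M q (crt R q Θ u) a b 𝒦 := by
    unfold SB
    rw [Finset.mul_sum, Finset.sum_comm]
    apply Finset.sum_congr rfl
    intro m hm
    rw [mem_Ico] at hm
    rw [← Finset.mul_sum, Finset.mul_sum]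
    have e1 : ∑ Θ ∈ Rt D R, ∑ ν ∈ Rt D m, ∑ k ∈ 𝒦, (if Nat.Coprime m (k * q) then
        b k * (Rt D k).card * (ps Y N0 (m * (k * q)) (crt m (k * q) ν (crt R q Θ u)) -
          Y / ((m * (k * q) : ℕ) : ℝ)) else 0) =
        ∑ k ∈ 𝒦, ∑ Θ ∈ Rt D R, ∑ ν ∈ Rt D m, (if Nat.Coprime m (k * q) then
        b k * (Rt D k).card * (ps Y N0 (m * (k * q)) (crt m (k * q) ν (crt R q Θ u)) -
          Y / ((m * (k * q) : ℕ) : ℝ)) else 0) := by
      have e2 : ∀ Θ ∈ Rt D R, ∑ ν ∈ Rt D m, ∑ k ∈ 𝒦, (if Nat.Coprime m (k * q) then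
        b k * (Rt D k).card * (ps Y N0 (m * (k * q)) (crt m (k * q) ν (crt R q Θ u)) -
          Y / ((m * (k * q) : ℕ) : ℝ)) else 0) = ∑ k ∈ 𝒦, ∑ ν ∈ Rt D m,
            (if Nat.Coprime m (k * q) then
        b k * (Rt D k).card * (ps Y N0 (m * (k * q)) (crt m (k * q) ν (crt R q Θ u)) -
          Y / ((m * (k * q) : ℕ) : ℝ)) else 0) := fun Θ _ => Finset.sum_comm
      rw [Finset.sum_congr rfl e2, Finset.sum_comm]
    rw [e1, Finset.mul_sum]
    apply Finset.sum_congr rfl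
    intro k hk
    obtain ⟨k1, k2, k3, k4⟩ := h𝒦1 k hk
    have hk1 : 1 ≤ k := hK.trans k3
    by_cases hc : Nat.Coprime m (k * q)
    · simp only [if_pos hc]
      obtain ⟨k', hk'⟩ := k2
      have hk'1 : 1 ≤ k' := by
        rcases Nat.eq_zero_or_pos k' with h0 | h0
        · rw [h0] at hk'; omega
        · exact h0
      have hkk : Nat.Coprime k k' := by
        rw [hk'] at hRsq
        exact Nat.coprime_of_squarefree_mul hRsq
      have hav := rmd_avg (D := D) Y N0 hY0 m k k' q (hM.trans hm.1) hk1 hk'1 hq hkk (hk' ▸ hRq) hc u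
      rw [← hk'] at hav
      have e3 : ∑ Θ ∈ Rt D R, ∑ ν ∈ Rt D m, b k * (Rt D k).card *
          (ps Y N0 (m * (k * q)) (crt m (k * q) ν (crt R q Θ u)) - Y / ((m * (k * q) : ℕ) : ℝ)) =
          b k * ((Rt D k).card * ∑ Θ ∈ Rt D R, ∑ ν ∈ Rt D m,
          (ps Y N0 (m * (k * q)) (crt m (k * q) ν (crt R q Θ u)) - Y / ((m * (k * q) : ℕ) : ℝ))) := by
        simp only [Finset.mul_sum]
        apply Finset.sum_congr rfl
        intro Θ _
        apply Finset.sum_congr rfl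
        intro ν _
        ring
      rw [e3, ← hav]
      ring
    · simp only [if_neg hc, Finset.sum_const_zero, mul_zero]
  have hcard : (0 : ℝ) < (Rt D R).card := by exact_mod_cast Finset.card_pos.2 hRne
  have hb1 : ∀ Θ ∈ Rt D R, |SB D Y N0 M q (crt R q Θ u) a b 𝒦| ≤ C * Y ^ (1 - δ / 6) := by
    intro Θ hΘ
    obtain ⟨c1, _⟩ := crt_spec R q hq hRq Θ u
    apply H Y N0 M K q R (crt R q Θ u) a b 𝒦 hY hM hK hq hq0 hR1 hRq _ h𝒦1 ha hb hN0 hqY hMY hKY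
    have h1 := (mem_Rt.1 hΘ).2.2
    have h2 : (crt R q Θ u) ^ 2 - D = (Θ ^ 2 - D) + (crt R q Θ u - Θ) * (crt R q Θ u + Θ) := by ring
    rw [h2]
    exact dvd_add h1 (c1.mul_right _)
  have h5 : ((Rt D R).card : ℝ) * |∑ m ∈ Ico M (2 * M), ∑ k ∈ 𝒦, (if Nat.Coprime m (k * q) then
      a m * (b k * rmd D Y N0 q u (m * k)) else 0)| ≤ ((Rt D R).card : ℝ) * (C * Y ^ (1 - δ / 6)) := by
    rw [← abs_of_pos hcard, ← abs_mul, abs_of_pos hcard, havg]
    refine (Finset.abs_sum_le_sum_abs _ _).trans ((Finset.sum_le_sum hb1).trans ?_)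
    rw [Finset.sum_const, nsmul_eq_mul]
  exact le_of_mul_le_mul_left h5 hcard

/-- the bilinear level of distribution -/
theorem bil (hw : HasWeylE D q₀) (δ σ : ℝ) (hδ : 0 < δ) (hδ1 : δ ≤ 1 / 12) (hσ : 0 ≤ σ) : ∃ C : ℝ, 0 < C ∧
    ∀ (Y N0 : ℝ) (Mx Kx q : ℕ) (u : ℤ) (a b : ℕ → ℝ), 1 ≤ Y → 1 ≤ q → q₀ ∣ q →
    (∀ m, |a m| ≤ 1) → (∀ k, |b k| ≤ 1) → (∀ k, b k ≠ 0 → Squarefree k ∧ Nat.Coprime k q) →
    |N0| ≤ Y ^ (1 + σ) → (q : ℝ) ≤ Y ^ (δ / 24) →
    (Mx : ℝ) ≤ Y ^ (1 - δ) → (Kx : ℝ) ≤ Y ^ (1 / 12 - σ / 3 - δ) →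
    |∑ m ∈ Icc 1 Mx, ∑ k ∈ Icc 1 Kx, if Nat.Coprime m (k * q) then
      a m * (b k * rmd D Y N0 q u (m * k)) else 0| ≤ C * Y ^ (1 - δ / 12) := by
  classical
  obtain ⟨C, hC, H⟩ := blk hw δ σ hδ hδ1 hσ
  refine ⟨C * (2 / (δ / 24) + 1) ^ 2, by positivity, ?_⟩
  intro Y N0 Mx Kx q u a b hY hq hq0 ha hb hbs hN0 hqY hMY hKY
  have hY0 : 0 < Y := by linarith
  have hMY1 : (Mx : ℝ) ≤ Y := by
    refine hMY.trans ?_
    calc Y ^ (1 - δ) ≤ Y ^ (1 : ℝ) := Real.rpow_le_rpow_of_exponent_le hY (by linarith)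
      _ = Y := Real.rpow_one Y
  have hKY1 : (Kx : ℝ) ≤ Y := by
    refine hKY.trans ?_
    calc Y ^ (1 / 12 - σ / 3 - δ) ≤ Y ^ (1 : ℝ) := Real.rpow_le_rpow_of_exponent_le hY (by linarith)
      _ = Y := Real.rpow_one Y
  set a' : ℕ → ℝ := fun m => if m ≤ Mx then a m else 0 with ha'
  set b' : ℕ → ℝ := fun k => if k ≤ Kx then b k else 0 with hb'
  have hsum : ∑ m ∈ Icc 1 Mx, ∑ k ∈ Icc 1 Kx, (if Nat.Coprime m (k * q) then
      a m * (b k * rmd D Y N0 q u (m * k)) else 0) =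
      ∑ i ∈ range (Nat.log 2 Mx + 1), ∑ j ∈ range (Nat.log 2 Kx + 1),
        ∑ m ∈ Ico (2 ^ i) (2 * 2 ^ i), ∑ k ∈ Ico (2 ^ j) (2 * 2 ^ j),
          (if Nat.Coprime m (k * q) then a' m * (b' k * rmd D Y N0 q u (m * k)) else 0) := by
    rw [dyad2]
    apply Finset.sum_congr rfl
    intro i _
    rw [Finset.sum_comm]
    apply Finset.sum_congr rfl
    intro m _
    by_cases hm : m ≤ Mx
    · rw [if_pos hm, dyad2]
      apply Finset.sum_congr rfl
      intro j _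
      apply Finset.sum_congr rfl
      intro k _
      simp only [ha', hb', if_pos hm]
      by_cases hk : k ≤ Kx
      · simp only [if_pos hk]
      · simp only [if_neg hk, zero_mul, mul_zero, ite_self]
    · rw [if_neg hm]
      symm
      apply Finset.sum_eq_zero
      intro j _
      apply Finset.sum_eq_zero
      intro k _
      simp only [ha', if_neg hm, zero_mul, ite_self]
  rw [hsum]
  by_cases hM0 : Mx = 0
  · have h0 : ∀ m, 1 ≤ m → a' m = 0 := by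
      intro m hm
      simp only [ha']
      rw [if_neg (by omega)]
    have h1 : ∑ i ∈ range (Nat.log 2 Mx + 1), ∑ j ∈ range (Nat.log 2 Kx + 1),
        ∑ m ∈ Ico (2 ^ i) (2 * 2 ^ i), ∑ k ∈ Ico (2 ^ j) (2 * 2 ^ j),
          (if Nat.Coprime m (k * q) then a' m * (b' k * rmd D Y N0 q u (m * k)) else 0) = 0 := by
      apply Finset.sum_eq_zero
      intro i _
      apply Finset.sum_eq_zero
      intro j _
      apply Finset.sum_eq_zero
      intro m hm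
      rw [mem_Ico] at hm
      apply Finset.sum_eq_zero
      intro k _
      rw [h0 m (Nat.one_le_two_pow.trans hm.1), zero_mul, ite_self]
    rw [h1, abs_zero]
    positivity
  by_cases hK0 : Kx = 0
  · have h0 : ∀ k, 1 ≤ k → b' k = 0 := by
      intro k hk
      simp only [hb']
      rw [if_neg (by omega)]
    have h1 : ∑ i ∈ range (Nat.log 2 Mx + 1), ∑ j ∈ range (Nat.log 2 Kx + 1),
        ∑ m ∈ Ico (2 ^ i) (2 * 2 ^ i), ∑ k ∈ Ico (2 ^ j) (2 * 2 ^ j),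
          (if Nat.Coprime m (k * q) then a' m * (b' k * rmd D Y N0 q u (m * k)) else 0) = 0 := by
      apply Finset.sum_eq_zero
      intro i _
      apply Finset.sum_eq_zero
      intro j _
      apply Finset.sum_eq_zero
      intro m _
      apply Finset.sum_eq_zero
      intro k hk
      rw [mem_Ico] at hk
      rw [h0 k (Nat.one_le_two_pow.trans hk.1), zero_mul, mul_zero, ite_self]
    rw [h1, abs_zero]
    positivity
  have hblk : ∀ i ∈ range (Nat.log 2 Mx + 1), ∀ j ∈ range (Nat.log 2 Kx + 1),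
      |∑ m ∈ Ico (2 ^ i) (2 * 2 ^ i), ∑ k ∈ Ico (2 ^ j) (2 * 2 ^ j),
          (if Nat.Coprime m (k * q) then a' m * (b' k * rmd D Y N0 q u (m * k)) else 0)| ≤
        C * Y ^ (1 - δ / 6) := by
    intro i hi j hj
    rw [mem_range] at hi hj
    apply H Y N0 (2 ^ i) (2 ^ j) q u a' b' hY Nat.one_le_two_pow Nat.one_le_two_pow hq hq0
    · intro m
      simp only [ha']
      split_ifs
      · exact ha m
      · simp
    · intro k
      simp only [hb']
      split_ifs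
      · exact hb k
      · simp
    · intro k hk
      simp only [hb'] at hk
      split_ifs at hk
      · exact hbs k hk
      · exact absurd rfl hk
    · exact hN0
    · exact hqY
    · refine le_trans ?_ hMY
      have h1 : 2 ^ i ≤ Mx := (Nat.pow_le_pow_right (by norm_num) (by omega)).trans
        (Nat.pow_log_le_self 2 hM0)
      exact_mod_cast h1
    · refine le_trans ?_ hKY
      have h1 : 2 ^ j ≤ Kx := (Nat.pow_le_pow_right (by norm_num) (by omega)).trans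
        (Nat.pow_log_le_self 2 hK0)
      exact_mod_cast h1
  have hl1 := log_bd (δ / 24) (by positivity) Y hY Mx hMY1
  have hl2 := log_bd (δ / 24) (by positivity) Y hY Kx hKY1
  set A : ℝ := 2 / (δ / 24) + 1 with hA
  calc |∑ i ∈ range (Nat.log 2 Mx + 1), ∑ j ∈ range (Nat.log 2 Kx + 1),
        ∑ m ∈ Ico (2 ^ i) (2 * 2 ^ i), ∑ k ∈ Ico (2 ^ j) (2 * 2 ^ j),
          (if Nat.Coprime m (k * q) then a' m * (b' k * rmd D Y N0 q u (m * k)) else 0)| ≤
      ∑ i ∈ range (Nat.log 2 Mx + 1), ∑ j ∈ range (Nat.log 2 Kx + 1), C * Y ^ (1 - δ / 6) := by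
        refine (Finset.abs_sum_le_sum_abs _ _).trans (Finset.sum_le_sum fun i hi => ?_)
        refine (Finset.abs_sum_le_sum_abs _ _).trans (Finset.sum_le_sum fun j hj => ?_)
        exact hblk i hi j hj
    _ = ((Nat.log 2 Mx + 1 : ℕ) : ℝ) * (((Nat.log 2 Kx + 1 : ℕ) : ℝ) * (C * Y ^ (1 - δ / 6))) := by
        rw [Finset.sum_const, Finset.sum_const, card_range, card_range, nsmul_eq_mul, nsmul_eq_mul]
    _ ≤ (A * Y ^ (δ / 24)) * ((A * Y ^ (δ / 24)) * (C * Y ^ (1 - δ / 6))) := by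
        gcongr
    _ = C * A ^ 2 * (Y ^ (δ / 24) * Y ^ (δ / 24) * Y ^ (1 - δ / 6)) := by ring
    _ = C * A ^ 2 * Y ^ (1 - δ / 12) := by
        rw [← Real.rpow_add hY0, ← Real.rpow_add hY0]
        congr 2
        ring

end Pool.Agent.T2h76Q.E
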