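import Pool.Agent.T2h76Q.Gm1
import Pool.Agent.T2h76R.Rm5
/-! The densities, and the sums over all integers. -/

set_option autoImplicit false

namespace Pool.Agent.T2h76Q.E

open Pool.Agent.T2h76R (HasWeylE)
open Finset Filter
open Pool.Agent.T2h76 (gw gw_pos gw_summable WWc Ce mem_Ce VV_ind mer_diff)
open Pool.Agent.W23.DC
open Pool.Agent.Y882.PX (ro ro_eq)
open Pool.Agent.Y882.SI (QF QF_eval ro_quad_le ro_quad_two mer_quad lo_quad lo)
open Pool.Agent.Y882 (VV tt_lt)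
open Pool.Agent.Y844.BT (cel cel_spec)

variable {D : ℤ} {q₀ : ℕ}

theorem notsq1 (hw : HasWeylE D q₀) : ¬ IsSquare (-(-D)) := by
  rw [neg_neg]
  exact hw.nsq

/-- the primes dividing the modulus are negligible -/
theorem mer_hq (hw : HasWeylE D q₀) (ε η : ℝ) (hε : 0 < ε) (hη : 0 < η) : ∃ X0 : ℕ, ∀ X : ℕ, X0 ≤ X → ∀ q : ℕ, 1 ≤ q →
    q ≤ X → Mer (pr X ε 1) (tt X) (hq D q) ε 1 η := by
  classical
  obtain ⟨Y0, hY0⟩ := mer_quad (-D) (notsq1 hw) ε 1 (η / 2) hε le_rfl (by linarith)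
  obtain ⟨C, hC, hdv⟩ := Pool.Agent.H510R2.divisor_bound (ε / 2) (by linarith)
  have ev1 : ∀ᶠ Y : ℕ in atTop, 4 * C / η ≤ (Y : ℝ) ^ (ε / 2) :=
    tendsto_natCast_atTop_atTop.eventually
      ((tendsto_rpow_atTop (by linarith)).eventually_ge_atTop _)
  obtain ⟨Y1, hY1⟩ := eventually_atTop.1 (ev1.and (eventually_ge_atTop 2))
  refine ⟨max Y0 Y1, ?_⟩
  intro X hX q hq1 hqX
  obtain ⟨e1, e2⟩ := hY1 X ((le_max_right _ _).trans hX)
  have hX0 : (0 : ℝ) < X := by exact_mod_cast (by omega : 0 < X)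
  have h1 := hY0 X ((le_max_left _ _).trans hX)
  have h2 := mer_diff (pr X ε 1) (tt X) _ (hq D q) ε 1 (η / 2) (η / 2) h1 (by
    have h3 : ∀ p ∈ pr X ε 1, |hq D q p - (ro (QF (-D)) 0 p : ℝ) / p| ≤
        if p ∣ q then 2 / (X : ℝ) ^ ε else 0 := by
      intro p hp
      obtain ⟨h4, h5, _⟩ := Pool.Agent.Y882.PX.pr_mem X p ε 1 e2 hp
      unfold hq
      rw [card_Rt_ro]
      split_ifs
      · rw [zero_sub, abs_neg, abs_of_nonneg (by positivity)]
        have h6 : (ro (QF (-D)) 0 p : ℝ) ≤ 2 := by exact_mod_cast ro_quad_le (-D) p h4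
        exact div_le_div₀ (by norm_num) h6 (by positivity) h5
      · rw [sub_self, abs_zero]
    refine (sum_le_sum h3).trans ?_
    rw [← sum_filter, sum_const, nsmul_eq_mul]
    have h4 : (((pr X ε 1).filter (fun p => p ∣ q)).card : ℝ) ≤ C * (X : ℝ) ^ (ε / 2) := by
      have h5 : ((pr X ε 1).filter (fun p => p ∣ q)) ⊆ q.divisors := by
        intro p hp
        rw [mem_filter] at hp
        rw [Nat.mem_divisors]
        exact ⟨hp.2, by omega⟩
      have h6 : (((pr X ε 1).filter (fun p => p ∣ q)).card : ℝ) ≤ q.divisors.card := by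
        exact_mod_cast card_le_card h5
      refine h6.trans ((hdv q hq1).trans ?_)
      gcongr
    have h7 : (X : ℝ) ^ ε = (X : ℝ) ^ (ε / 2) * (X : ℝ) ^ (ε / 2) := by
      rw [← Real.rpow_add hX0]
      congr 1
      ring
    have h8 : 0 < (X : ℝ) ^ (ε / 2) := by positivity
    calc (((pr X ε 1).filter (fun p => p ∣ q)).card : ℝ) * (2 / (X : ℝ) ^ ε) ≤
        (C * (X : ℝ) ^ (ε / 2)) * (2 / (X : ℝ) ^ ε) := by
          apply mul_le_mul_of_nonneg_right h4 (by positivity)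
      _ = 2 * C / (X : ℝ) ^ (ε / 2) := by
          rw [h7]
          field_simp
      _ ≤ η / 2 := by
          rw [div_le_iff₀ hη] at e1
          rw [div_le_iff₀ h8]
          linarith)
  rw [add_halves] at h2
  exact h2

/-- the product over the small primes -/
theorem prod_hq (hw : HasWeylE D q₀) : ∃ c : ℝ, 0 < c ∧ ∀ (X : ℕ) (ϖ : ℝ) (n q : ℕ), 3 ≤ X →
    c / Real.log X ≤ ∏ p ∈ Ce X ϖ 0 n, (1 - hq D q p) := by
  classical
  obtain ⟨c, hc, H⟩ := lo_quad (-D) (notsq1 hw)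
  refine ⟨c, hc, fun X ϖ n q hX => (H X hX).trans ?_⟩
  unfold lo
  have hsub : Ce X ϖ 0 n ⊆ (Icc 1 X).filter Nat.Prime := by
    intro p hp
    rw [mem_Ce] at hp
    rw [mem_filter, mem_Icc]
    exact ⟨hp.1, hp.2.1⟩
  have h01 : ∀ p ∈ (Icc 1 X).filter Nat.Prime,
      0 ≤ 1 - (ro (QF (-D)) 0 p : ℝ) / p ∧ 1 - (ro (QF (-D)) 0 p : ℝ) / p ≤ 1 := by
    intro p hp
    have hpp := (mem_filter.1 hp).2
    have hp0 : (0 : ℝ) < p := by exact_mod_cast hpp.pos
    have h1 : (ro (QF (-D)) 0 p : ℝ) ≤ p := by exact_mod_cast Pool.Agent.Y882.PX.ro_le_self _ _ _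
    constructor
    · rw [sub_nonneg, div_le_one hp0]
      exact h1
    · have : 0 ≤ (ro (QF (-D)) 0 p : ℝ) / p := by positivity
      linarith
  rw [← prod_sdiff hsub]
  calc (∏ p ∈ (Icc 1 X).filter Nat.Prime \ Ce X ϖ 0 n, (1 - (ro (QF (-D)) 0 p : ℝ) / p)) *
      ∏ p ∈ Ce X ϖ 0 n, (1 - (ro (QF (-D)) 0 p : ℝ) / p) ≤
      1 * ∏ p ∈ Ce X ϖ 0 n, (1 - (ro (QF (-D)) 0 p : ℝ) / p) := by
        apply mul_le_mul_of_nonneg_right
        · apply prod_le_one
          · intro p hp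
            exact (h01 p (mem_sdiff.1 hp).1).1
          · intro p hp
            exact (h01 p (mem_sdiff.1 hp).1).2
        · exact prod_nonneg fun p hp => (h01 p (hsub hp)).1
    _ = ∏ p ∈ Ce X ϖ 0 n, (1 - (ro (QF (-D)) 0 p : ℝ) / p) := one_mul _
    _ ≤ _ := by
        apply Finset.prod_le_prod
        · intro p hp
          exact (h01 p (hsub hp)).1
        · intro p _
          have := hq_le (D := D) q p
          linarith

end Pool.Agent.T2h76Q.E
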