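import Pool.Agent.T2h76.Bi3
import Pool.Agent.T2h76.Wl2

/-! The complete sums with a weight that is periodic modulo `q`. -/

set_option autoImplicit false

namespace Pool.Agent.T2h76R

open Pool.Agent.T2h76

open Finset Pool.Agent.H442R2.KF.TaskB Pool.Agent.TH43.LK

theorem ks_cls : ∃ K : ℝ, 1 ≤ K ∧ ∀ (N y L q : ℕ) [NeZero N] [NeZero L] [NeZero q], N = y * L * q →
    Nat.Coprime L q → ∀ Θ j : ℤ, (L : ℤ) ∣ Θ ^ 2 + 1 → ∀ w : ZMod N, ∀ (hqN : q ∣ N) (a : ZMod q),
    ‖∑ u : ZMod N, if ZMod.castHom hqN (ZMod q) u = a then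
        ZMod.stdAddChar (-(u * w)) * phi N y Θ j u else 0‖ ≤
      L.divisors.card * (K * 2 ^ N.primeFactors.card * Real.sqrt (N : ℝ) *
        Real.sqrt (Nat.gcd N j.natAbs)) := by
  classical
  obtain ⟨K, hK, HK⟩ := base_bd
  refine ⟨K, hK, ?_⟩
  intro N y L q _ _ _ hN hLq Θ j hΘ w hqN
  have hq0 : 0 < q := Nat.pos_of_ne_zero (NeZero.ne q)
  set W : ℝ := K * 2 ^ N.primeFactors.card * Real.sqrt (N : ℝ) *
        Real.sqrt (Nat.gcd N j.natAbs) with hW
  have hW0 : 0 ≤ W := by positivity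
  have hLN : L ∣ N := by rw [hN]; exact (dvd_mul_left L y).trans (dvd_mul_right _ _)
  intro a
  obtain ⟨x0, rfl⟩ := ZMod.intCast_surjective a
  by_cases hun : IsCoprime (q : ℤ) (x0 ^ 2 + (y : ℤ) ^ 2)
  swap
  · rw [Finset.sum_eq_zero]
    · rw [norm_zero]; positivity
    · intro u _
      obtain ⟨x, rfl⟩ := ZMod.intCast_surjective u
      split_ifs with h
      · rw [map_intCast, eq_comm, ZMod.intCast_eq_intCast_iff_dvd_sub] at h
        have hnu : ¬ IsUnit (((x : ℤ) : ZMod N) ^ 2 + (((y : ℤ)) : ZMod N) ^ 2) := by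
          intro h3
          apply hun
          have h4 : (((x : ℤ) : ZMod N) ^ 2 + (((y : ℤ)) : ZMod N) ^ 2) =
              (((x ^ 2 + (y : ℤ) ^ 2 : ℤ)) : ZMod N) := by push_cast; ring
          rw [h4, ZMod.coe_int_isUnit_iff_isCoprime] at h3
          have h5 : IsCoprime (q : ℤ) (x ^ 2 + (y : ℤ) ^ 2) :=
            h3.of_isCoprime_of_dvd_left (by exact_mod_cast hqN)
          obtain ⟨t, ht⟩ := h
          have e : x0 ^ 2 + (y : ℤ) ^ 2 = (x ^ 2 + (y : ℤ) ^ 2) + q * (-(t * (x + x0))) := by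
            have : x = x0 + q * t := by linarith
            rw [this]; ring
          rw [e]
          exact h5.add_mul_left_right _
        unfold phi
        rw [if_neg hnu, mul_zero]
      · rfl
  · obtain ⟨T, a1, a2, hT1, hT2, hT3⟩ := exT L q hq0 hLq Θ hΘ x0 y hun
    set κ : ℂ := ZMod.stdAddChar (-(j : ZMod q) * ((((a1 * x0 - a2 * y : ℤ)) : ZMod q) *
      ((((x0 ^ 2 + (y : ℤ) ^ 2) * (x0 + T * y) : ℤ)) : ZMod q)⁻¹)) with hκ
    set F0 : ZMod N → ℂ := fun X =>
      if IsUnit X then (ZMod.stdAddChar (-(j : ZMod N) * X⁻¹) : ℂ) else 0 with hF0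
    set F1 : ZMod N → ℂ := fun X => if ZMod.castHom hqN (ZMod q) X = (((x0 + T * y : ℤ)) : ZMod q)
      then F0 X else 0 with hF1
    set F2 : ZMod N → ℂ := fun X =>
      if IsUnit (ZMod.castHom hLN (ZMod L) X - (((2 * T * y : ℤ)) : ZMod L)) then F1 X else 0 with hF2
    have hterm : ∀ u : ZMod N, (if ZMod.castHom hqN (ZMod q) u = ((x0 : ℤ) : ZMod q) then
        ZMod.stdAddChar (-(u * w)) * phi N y Θ j u else 0) =
        κ * ZMod.stdAddChar ((((T * y : ℤ)) : ZMod N) * w) *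
          (F2 (u + (((T * y : ℤ)) : ZMod N)) *
            ZMod.stdAddChar (-w * (u + (((T * y : ℤ)) : ZMod N)))) := by
      intro u
      obtain ⟨x, rfl⟩ := ZMod.intCast_surjective u
      have eX : ((x : ℤ) : ZMod N) + (((T * y : ℤ)) : ZMod N) = (((x + T * y : ℤ)) : ZMod N) := by
        push_cast; ring
      rw [eX]
      have hcl1 : (ZMod.castHom hqN (ZMod q) ((x : ℤ) : ZMod N) = ((x0 : ℤ) : ZMod q)) ↔
          (ZMod.castHom hqN (ZMod q) (((x + T * y : ℤ)) : ZMod N) =
            (((x0 + T * y : ℤ)) : ZMod q)) := by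
        rw [map_intCast, map_intCast]
        push_cast
        exact (add_left_inj _).symm
      by_cases h : ZMod.castHom hqN (ZMod q) ((x : ℤ) : ZMod N) = ((x0 : ℤ) : ZMod q)
      · rw [if_pos h]
        have h' := h
        rw [map_intCast, eq_comm, ZMod.intCast_eq_intCast_iff_dvd_sub] at h'
        obtain ⟨t, ht⟩ := h'
        have hx : x = x0 + q * t := by linarith
        have hq1 : IsCoprime (q : ℤ) (x ^ 2 + (y : ℤ) ^ 2) := by
          have e : x ^ 2 + (y : ℤ) ^ 2 = (x0 ^ 2 + (y : ℤ) ^ 2) + q * (t * (x + x0)) := by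
            rw [hx]; ring
          rw [e]
          exact hun.add_mul_left_right _
        have hq2 : IsCoprime (q : ℤ) (x + T * y) := by
          have e : x + T * y = (x0 + T * y) + q * t := by rw [hx]; ring
          rw [e]
          exact hT1.add_mul_left_right _
        have hiff := unit_iff N y L q hN x T Θ a1 a2 hT2 hT3 hq1 hq2
        have hu1 : IsUnit (((x : ℤ) : ZMod N) ^ 2 + (((y : ℤ)) : ZMod N) ^ 2) ↔
            IsCoprime ((N : ℕ) : ℤ) (x ^ 2 + (y : ℤ) ^ 2) := by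
          have h4 : (((x : ℤ) : ZMod N) ^ 2 + (((y : ℤ)) : ZMod N) ^ 2) =
              (((x ^ 2 + (y : ℤ) ^ 2 : ℤ)) : ZMod N) := by push_cast; ring
          rw [h4, ZMod.coe_int_isUnit_iff_isCoprime]
        have hu2 : IsUnit (((x + T * y : ℤ)) : ZMod N) ↔ IsCoprime ((N : ℕ) : ℤ) (x + T * y) :=
          ZMod.coe_int_isUnit_iff_isCoprime _ _
        have hu3 : IsUnit (ZMod.castHom hLN (ZMod L) (((x + T * y : ℤ)) : ZMod N) -
            (((2 * T * y : ℤ)) : ZMod L)) ↔ IsCoprime (L : ℤ) (x + T * y - 2 * T * y) := by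
          rw [map_intCast, ← Int.cast_sub, ZMod.coe_int_isUnit_iff_isCoprime]
        have hF1v : F1 (((x + T * y : ℤ)) : ZMod N) = F0 (((x + T * y : ℤ)) : ZMod N) := by
          simp only [hF1]
          rw [if_pos (hcl1.1 h)]
        by_cases hu : IsUnit (((x : ℤ) : ZMod N) ^ 2 + (((y : ℤ)) : ZMod N) ^ 2)
        · obtain ⟨c1, c2⟩ := hiff.1 (hu1.1 hu)
          have hX := hu2.2 c1
          have hv := phi_val N y L q hN x T Θ j a1 a2 hT2 hT3 hu hX
          have hκ' : (ZMod.stdAddChar (-(j : ZMod q) * ((((a1 * x - a2 * y : ℤ)) : ZMod q) *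
              ((((x ^ 2 + (y : ℤ) ^ 2) * (x + T * y) : ℤ)) : ZMod q)⁻¹)) : ℂ) = κ := by
            rw [hκ]
            have hxq : ((x : ℤ) : ZMod q) = ((x0 : ℤ) : ZMod q) := by
              rw [hx]; push_cast; simp
            congr 2
            push_cast
            rw [hxq]
          rw [hκ'] at hv
          rw [hv]
          simp only [hF2]
          rw [if_pos (hu3.2 c2), hF1v]
          simp only [hF0]
          rw [if_pos hX]
          have e6 : (ZMod.stdAddChar (-(((x : ℤ) : ZMod N) * w)) : ℂ) =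
              ZMod.stdAddChar ((((T * y : ℤ)) : ZMod N) * w) *
                ZMod.stdAddChar (-w * (((x + T * y : ℤ)) : ZMod N)) := by
            rw [← AddChar.map_add_eq_mul]
            congr 1
            push_cast
            ring
          rw [e6]
          ring
        · have hz : F2 (((x + T * y : ℤ)) : ZMod N) = 0 := by
            simp only [hF2]
            split_ifs with h7
            · rw [hF1v]
              simp only [hF0]
              rw [if_neg]
              intro h8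
              exact hu (hu1.2 (hiff.2 ⟨hu2.1 h8, hu3.1 h7⟩))
            · rfl
          rw [hz]
          unfold phi
          rw [if_neg hu]
          ring
      · rw [if_neg h]
        have hz : F2 (((x + T * y : ℤ)) : ZMod N) = 0 := by
          simp only [hF2, hF1]
          rw [if_neg (fun h' => h (hcl1.2 h'))]
          simp
        rw [hz]
        ring
    rw [Finset.sum_congr rfl (fun u _ => hterm u), ← Finset.mul_sum,
      Fintype.sum_equiv (Equiv.addRight (((T * y : ℤ)) : ZMod N))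
        (fun u => F2 (u + (((T * y : ℤ)) : ZMod N)) *
            (ZMod.stdAddChar (-w * (u + (((T * y : ℤ)) : ZMod N))) : ℂ))
        (fun X => F2 X * (ZMod.stdAddChar (-w * X) : ℂ)) (fun u => rfl)]
    rw [norm_mul, norm_mul, hκ, AddChar.norm_apply, AddChar.norm_apply, one_mul, one_mul]
    have hB1 := restrict N q hqN F0 W (fun b => HK N j b) (((x0 + T * y : ℤ)) : ZMod q)
    exact restrict_cop N L hLN F1 W hB1 (((2 * T * y : ℤ)) : ZMod L) (-w)

theorem ksP : ∃ K : ℝ, 1 ≤ K ∧ ∀ (N y L q : ℕ) [NeZero N] [NeZero L] [NeZero q], N = y * L * q →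
    Nat.Coprime L q → ∀ Θ j : ℤ, (L : ℤ) ∣ Θ ^ 2 + 1 → ∀ Γ : ZMod N → ℂ, (∀ u, ‖Γ u‖ ≤ 1) →
    (∀ x x' : ℤ, (q : ℤ) ∣ x - x' → Γ ((x : ℤ) : ZMod N) = Γ ((x' : ℤ) : ZMod N)) → ∀ w : ZMod N,
    ‖∑ u : ZMod N, ZMod.stdAddChar (-(u * w)) * (phi N y Θ j u * Γ u)‖ ≤
      q * (L.divisors.card * (K * 2 ^ N.primeFactors.card * Real.sqrt (N : ℝ) *
        Real.sqrt (Nat.gcd N j.natAbs))) := by
  classical
  obtain ⟨K, hK, HK⟩ := ks_cls
  refine ⟨K, hK, ?_⟩
  intro N y L q _ _ _ hN hLq Θ j hΘ Γ hΓ hΓp w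
  have hqN : q ∣ N := by rw [hN]; exact dvd_mul_left _ _
  set W : ℝ := K * 2 ^ N.primeFactors.card * Real.sqrt (N : ℝ) *
        Real.sqrt (Nat.gcd N j.natAbs) with hW
  have hW0 : 0 ≤ W := by positivity
  have hsplit : ∑ u : ZMod N, ZMod.stdAddChar (-(u * w)) * (phi N y Θ j u * Γ u) =
      ∑ a : ZMod q, ∑ u : ZMod N, if ZMod.castHom hqN (ZMod q) u = a then
        ZMod.stdAddChar (-(u * w)) * (phi N y Θ j u * Γ u) else 0 := by
    rw [Finset.sum_comm]
    apply sum_congr rfl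
    intro u _
    rw [Finset.sum_ite_eq]
    simp
  rw [hsplit]
  have hcl : ∀ a : ZMod q, ‖∑ u : ZMod N, if ZMod.castHom hqN (ZMod q) u = a then
        ZMod.stdAddChar (-(u * w)) * (phi N y Θ j u * Γ u) else 0‖ ≤ L.divisors.card * W := by
    intro a
    obtain ⟨x0, rfl⟩ := ZMod.intCast_surjective a
    have h1 : ∑ u : ZMod N, (if ZMod.castHom hqN (ZMod q) u = ((x0 : ℤ) : ZMod q) then
        ZMod.stdAddChar (-(u * w)) * (phi N y Θ j u * Γ u) else 0) =
        Γ ((x0 : ℤ) : ZMod N) * ∑ u : ZMod N, (if ZMod.castHom hqN (ZMod q) u = ((x0 : ℤ) : ZMod q) then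
        ZMod.stdAddChar (-(u * w)) * phi N y Θ j u else 0) := by
      rw [Finset.mul_sum]
      apply sum_congr rfl
      intro u _
      obtain ⟨x, rfl⟩ := ZMod.intCast_surjective u
      split_ifs with h
      · rw [map_intCast, eq_comm, ZMod.intCast_eq_intCast_iff_dvd_sub] at h
        rw [hΓp x x0 h]
        ring
      · rw [mul_zero]
    rw [h1, norm_mul]
    have h2 := HK N y L q hN hLq Θ j hΘ w hqN ((x0 : ℤ) : ZMod q)
    calc ‖Γ ((x0 : ℤ) : ZMod N)‖ * _ ≤ 1 * _ := mul_le_mul_of_nonneg_right (hΓ _) (norm_nonneg _)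
      _ = _ := one_mul _
      _ ≤ _ := h2
  refine (norm_sum_le _ _).trans ?_
  refine (Finset.sum_le_sum (fun a _ => hcl a)).trans ?_
  rw [Finset.sum_const, Finset.card_univ, ZMod.card, nsmul_eq_mul]

end Pool.Agent.T2h76R
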