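import Pool.Agent.T2h76Q.Mt11
import Pool.Agent.T2h76R.Hw
/-! All centres, one size. -/

set_option autoImplicit false
set_option linter.unusedSectionVars false

namespace Pool.Agent.T2h76Q.MT.E

open Pool.Agent.T2h76R (HasWeylE)
open Pool.Agent.T2h76 Pool.Agent.T2h76.MT

open Finset Filter
open Pool.Agent.R498.MT
open Pool.Agent.W23.DC
open Pool.Agent.Y677.RSZ (rt Sys rhoT per_mod)
open Pool.Agent.TH423.SH (PS)
open Pool.Agent.Y882 (VV tt_lt)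
open Pool.Agent.Y882.PX (pr_mem)
open Pool.Agent.Y844.BT (cel cel_spec)

variable {Dq : ℤ} {q₀ : ℕ}

open Classical in
/-- all the centres -/
theorem oneN (hD : ¬ IsSquare Dq) (hD4 : |Dq| ≤ 4) (F : ℤ → ℤ) (g : ℕ) (hF : Sys g F)
    (hGF : ∀ p : ℕ, p.Prime → ∀ n : ℤ, (p : ℤ) ∣ (G1 Dq) n → (p : ℤ) ∣ F n)
    (m k W X b M L z NT c' c'' J' : ℕ) (ϖ aw bw υ' R f0 τ : ℝ) (nε nz nυ : ℕ) (hX : 2 ≤ X)
    (hW : 0 < W) (hϖ : 0 < ϖ) (ha : 0 ≤ aw) (hb : 0 ≤ bw) (hυ' : ϖ * (nυ + 1 / 2) = υ')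
    (hab : bw * υ' ≤ aw) (hnε : 0 < ϖ * nε) (hnn : ϖ * nε ≤ ϖ * nυ)
    (hR : 0 < R) (hRz : R < ϖ * nz) (hf0 : 0 < f0) (hτ : τ ≤ 1)
    (hk : 3 * ((m : ℝ) + 1) * 1474560 ≤ f0 * R * k)
    (hεe : ϖ * nε ≤ e0 k (1 + aw) R)
    (hc'' : ((2 ^ k : ℕ) : ℝ) * (2 * (2 : ℕ) / (ϖ * nε)) ≤ c'') (t : Fin (2 ^ k) → ℕ) (hN : ∀ i, t i ≤ NT)
    (e4 : W * (NT + 1) + b + 3 ≤ X) (hMX : M + L ≤ X)
    (hbW : ∀ p : ℕ, p.Prime → p ∣ W → ¬ (p : ℤ) ∣ F b)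
    (hz1 : (z : ℝ) < (X : ℝ) ^ (ϖ * nε)) (hz2 : (X : ℝ) ^ (ϖ * nε) ≤ z + 1) (hWz : W ≤ z)
    (hd : Dat (qs (G1 Dq) X (ϖ * nε) (ϖ * nυ)) (mus (G1 Dq) X (ϖ * nε) (ϖ * nυ)) (ls (G1 Dq) X (ϖ * nε) (ϖ * nυ))
      (ϖ * nε) R (ϖ * nυ) (om k (1 + aw) (ϖ * nε)))
    (hU : ∀ (K : ℕ) (s : Pg (G1 Dq) X (ϖ * nε) (ϖ * nυ)) i j,
      ((s : ℕ) : ℤ) ∣ (G1 Dq) ((W * (K + t i) + b : ℕ) : ℤ) →
      ((s : ℕ) : ℤ) ∣ (G1 Dq) ((W * (K + t j) + b : ℕ) : ℤ) → i = j)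
    (c : Finset ℕ → ℝ) (hc1 : ∀ T, |c T| ≤ 1 + aw)
    (hc2 : ∀ T, c T ≠ 0 → ((∏ p ∈ T, p : ℕ) : ℝ) ≤ (X : ℝ) ^ τ)
    (hc3 : ∀ N : ℕ, VV (Ce X ϖ nε nυ) c (fun p => if p ∣ N then 1 else 0) ≤
      WBc (Ce X ϖ nε nz) (Ce X ϖ nz nυ) (cel X ϖ) ϖ aw bw N)
    (hc4 : ϖ * nε * f0 ≤ VV (Ce X ϖ nε nυ) c (fun p => (rt (G1 Dq) p : ℝ) / p))
    (cU cF : Finset ℕ → ℝ) (Λ0 δ : ℝ) (zQ zV : ℕ) (hcU : ∀ Q, |cU Q| ≤ Λ0) (hcF : ∀ Q, |cF Q| ≤ Λ0)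
    (hcs : ∀ Q ⊆ PS W z, (cU Q ≠ 0 ∨ cF Q ≠ 0) → ∏ p ∈ Q, p ≤ zQ)
    (hfl : ∀ N : ℕ, VV (PS W z) cF (fun p => if p ∣ N then 1 else 0) ≤
        (if ∀ p ∈ PS W z, ¬ p ∣ N then 1 else 0) ∧
      (if ∀ p ∈ PS W z, ¬ p ∣ N then 1 else 0) ≤ VV (PS W z) cU (fun p => if p ∣ N then 1 else 0))
    (hV0 : 0 < Vp F W b z t)
    (v1 : (1 - δ) * Vp F W b z t ≤ VV (PS W z) cF (fun p => (rhoT F W b t p : ℝ) / p))
    (v2 : VV (PS W z) cF (fun p => (rhoT F W b t p : ℝ) / p) ≤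
      VV (PS W z) cU (fun p => (rhoT F W b t p : ℝ) / p))
    (v3 : VV (PS W z) cU (fun p => (rhoT F W b t p : ℝ) / p) ≤ (1 + δ) * Vp F W b z t)
    (v4 : Vp F W b z t ≤ VV (PS W z) cU (fun p => (rhoT F W b t p : ℝ) / p))
    (hE : 2 ^ k * (2 * δ) * Ab k (ϖ * nε) ≤ 1 / 4) (hc' : 2 * R / (ϖ * nε) ≤ c')
    (hzV : ⌊(X : ℝ) ^ (2 * R)⌋₊ ≤ zV)
    (Y Λ : ℝ) (hY : 1 ≤ Y) (hΛ : 0 ≤ Λ)
    (hJ' : 2 * (Y * Λ) + J' * Y ≤ W * L)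
    (TT E₁ : ℝ) (hTT : ∑ T : Finset (Pg (G1 Dq) X (ϖ * nε) (ϖ * nυ)),
      |c (T.map (Function.Embedding.subtype _))| ≤ TT) (hTT1 : 1 ≤ TT) (hE₁ : 0 ≤ E₁)
    (hbl : ∀ j < J', ∀ (i : Fin (2 ^ k)) (q : ℕ), 1 ≤ q → W ∣ q → q ≤ W * (zQ * zV) → ∀ u : ℤ,
      |∑ T ∈ (Ce X ϖ nε nυ).powerset, c T * Pool.Agent.T2h76Q.rr Dq Y
        (((W * M + b : ℕ) : ℝ) + Y * Λ + j * Y + W * t i) q u (∏ p ∈ T, p)| ≤ E₁ ∧
      |rmd Dq Y (((W * M + b : ℕ) : ℝ) + Y * Λ + j * Y + W * t i) q u 1| ≤ E₁) :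
    J' * (Y / W * Vp F W b z t * (7 / 4) - (3 * 2 ^ k + m) * ((zQ * Λ0) *
      (((2 ^ k + 1 : ℕ) : ℝ) ^ c' * zV * (2 ^ c' * (Ab k (ϖ * nε) * 2 ^ c') ^ 2)) * ((zQ * zV : ℕ) *
        (E₁ + TT * (Real.exp (-(Real.pi / 2 * Λ ^ 2)) * (2 * Y + C0)))))) ≤
      (1 + C0) * (((Ab k (ϖ * nε) * 2 ^ c'') ^ 2 * 2 ^ k) *
        ((gdc Dq F X ϖ aw bw nε nz nυ W b t m M L).card : ℝ)) := by
  have hX1r : (1 : ℝ) ≤ X := by exact_mod_cast (by omega : 1 ≤ X)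
  have hY0 : 0 < Y := by linarith
  set ε := ϖ * nε with hε
  set υ := ϖ * nυ with hυ
  have hCe : Ce X ϖ nε nυ = pr X ε υ := Ce_pr X hX ϖ hϖ nε nυ
  set pp : Pg (G1 Dq) X ε υ → ℕ := fun s => (s : ℕ) with hpp
  have hpr : ∀ s, (pp s).Prime := fun s => (Pg_mem (G1 Dq) X ε υ hX s).1
  have hinj : Function.Injective pp := Subtype.val_injective
  have hPp : ∀ p ∈ PS W z, p.Prime ∧ p ≤ z := by
    intro p hp
    unfold PS at hp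
    rw [mem_filter, mem_Icc] at hp
    exact ⟨hp.2.1, hp.1.2⟩
  have hzs : ∀ s : Pg (G1 Dq) X ε υ, z < (s : ℕ) := by
    intro s
    have h2 := (Pg_mem (G1 Dq) X ε υ hX s).2.1
    have h3 := hz1.trans_le h2
    exact_mod_cast h3
  have hPS : ∀ p ∈ PS W z, ∀ s, p ≠ pp s := by
    intro p hp s h
    have h1 := (hPp p hp).2
    have h2 := hzs s
    have h3 : p = (s : ℕ) := h
    omega
  have hWs : ∀ s, ¬ pp s ∣ W := by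
    intro s h
    have h1 := Nat.le_of_dvd hW h
    have h2 := hzs s
    have h3 : (s : ℕ) ≤ W := h1
    omega
  set ξ : ℕ → Pg (G1 Dq) X ε υ → Option (Fin (2 ^ k)) := xi (G1 Dq) W b t pp with hξd
  have hξ : ∀ K (s : Pg (G1 Dq) X ε υ) j, ξ K s = some j ↔ (pp s : ℤ) ∣ (G1 Dq) ((W * (K + t j) + b : ℕ) : ℤ) :=
    fun K s j => xi_iff (G1 Dq) W b t pp K s (hU K s) j
  set nK : ℕ → ℕ := fun K => (∏ j, F ((W * (K + t j) + b : ℕ) : ℤ)).natAbs with hnKd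
  have hnK : ∀ K, ∀ p ∈ PS W z, p ∣ nK K ↔ ∃ j, (p : ℤ) ∣ F ((W * (K + t j) + b : ℕ) : ℤ) := by
    intro K p hp
    simp only [hnKd]
    rw [← Int.natCast_dvd]
    have h1 := Nat.prime_iff_prime_int.1 (hPp p hp).1
    rw [h1.dvd_finsetProd_iff]
    simp
  have hqq : qs (G1 Dq) X ε υ = qq Dq pp := by
    funext s
    rfl
  rw [hqq] at hd
  set μ := mus (G1 Dq) X ε υ with hμ
  set l := ls (G1 Dq) X ε υ with hl
  -- the coefficients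
  set cL : Finset (Pg (G1 Dq) X ε υ) → ℝ := fun T => c (T.map (Function.Embedding.subtype _)) with hcL
  have hcT : ∀ T, cL T ≠ 0 → lz l T ≤ τ := fun T hT => lz_le (G1 Dq) X ε υ hX T τ (hc2 _ hT)
  have hVV : ε * f0 ≤ ∑ T, cL T * ∏ s ∈ T, 1 / qq Dq pp s := by
    rw [hCe] at hc4
    refine hc4.trans (le_of_eq ?_)
    rw [VV_restrict (pr X ε υ) (Pg (G1 Dq) X ε υ) (filter_subset _ _) c
      (fun p => (rt (G1 Dq) p : ℝ) / p) (fun p hp hp' => by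
        have h0 : rt (G1 Dq) p = 0 := by
          by_contra h1
          exact hp' (mem_filter.2 ⟨hp, h1⟩)
        rw [h0]
        simp)]
    refine sum_congr rfl fun T _ => ?_
    congr 1
    refine prod_congr rfl fun s _ => ?_
    unfold qq
    rw [one_div, inv_div]
  have hγμ : ∀ s, 1 / qq Dq pp s ≤ μ s := by
    intro s
    have h1 := hd.q2 s
    rw [hμ]
    unfold mus
    rw [hqq]
    apply one_div_le_one_div_of_le (by linarith)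
    linarith
  set wb : ℕ → Fin (2 ^ k) → ℝ := fun K i => WBc (Ce X ϖ nε nz) (Ce X ϖ nz nυ) (cel X ϖ) ϖ aw bw
    ((G1 Dq) ((W * (K + t i) + b : ℕ) : ℤ)).natAbs with hwbd
  have hwb : ∀ K i, ∑ T, cL T * (if ∀ s ∈ T, ξ K s = some i then 1 else 0) ≤ wb K i := by
    intro K i
    have h1 := slot_w (G1 Dq) G1_per X ε υ hX c (W * (K + t i) + b) i (ξ K) (fun s => hξ K s i)
    have h2 := hc3 ((G1 Dq) ((W * (K + t i) + b : ℕ) : ℤ)).natAbs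
    rw [hCe] at h2
    refine le_trans (le_of_eq ?_) h2
    refine Eq.trans ?_ h1
    refine sum_congr rfl fun T _ => ?_
    congr
  have hwb1 : ∀ K i, wb K i ≤ 1 := fun K i => WBc_le_one X ϖ aw bw υ' nε nz nυ hϖ hb hυ' hab _
  have hw0 : ∀ K i, wb K i ≠ 0 → ∀ s, ξ K s = some i → R < l s := by
    intro K i hw s hs
    have h1 := (hξ K s i).1 hs
    have h2 : (s : ℕ) ∈ Ce X ϖ nε nυ := by
      rw [hCe]
      exact (mem_filter.1 s.2).1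
    have h3 := WBc_ne X ϖ aw bw nε nz nυ _ hw (s : ℕ) h2 (Int.natCast_dvd.1 h1)
    rw [mem_Ce] at h3
    have h4 := (cel_spec X hX ϖ hϖ (s : ℕ) h3.1.1).2.2.1
    have h5 : (nz : ℝ) ≤ cel X ϖ (s : ℕ) := by exact_mod_cast h3.2.2.1
    have h6 := mul_le_mul_of_nonneg_left h5 hϖ.le
    show R < tt X (s : ℕ)
    linarith
  have hzV' : ∀ V : Pg (G1 Dq) X ε υ → Option (Fin (2 ^ k)), lt l V ≤ 2 * R → DT pp V ≤ zV := by
    intro V hV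
    have h1 := DT_rpow (G1 Dq) X ε υ hX V
    have h2 : ((DT pp V : ℕ) : ℝ) ≤ (X : ℝ) ^ (2 * R) := by
      rw [hpp, h1]
      exact Real.rpow_le_rpow_of_exponent_le hX1r hV
    exact (Nat.le_floor h2).trans hzV
  have hευ : ε ≤ υ := hnn
  have hcen : ∀ j < J', Y / W * Vp F W b z t * (7 / 4) - (3 * 2 ^ k + m) * ((zQ * Λ0) *
      (((2 ^ k + 1 : ℕ) : ℝ) ^ c' * zV * (2 ^ c' * (Ab k ε * 2 ^ c') ^ 2)) * ((zQ * zV : ℕ) *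
        (E₁ + TT * (Real.exp (-(Real.pi / 2 * Λ ^ 2)) * (2 * Y + C0))))) ≤
      ∑ K ∈ Ioc M (M + L), gw Y (((W * M + b : ℕ) : ℝ) + Y * Λ + j * Y) ((W * K + b : ℕ) : ℤ) *
        ((if ∀ p ∈ PS W z, ¬ p ∣ nK K then 1 else 0) *
          (Lam none (qq Dq pp) μ (yf l R k) (ξ K) ^ 2 * (∑ i, wb K i - m))) := by
    intro j hj
    have hj' : (j : ℝ) + 1 ≤ J' := by exact_mod_cast hj
    have hj0 : (0 : ℝ) ≤ j := Nat.cast_nonneg j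
    have hjY : ((j : ℝ) + 1) * Y ≤ J' * Y := mul_le_mul_of_nonneg_right hj' hY0.le
    have hjY0 : 0 ≤ (j : ℝ) * Y := by positivity
    have h := center pp hpr hinj F hF.per W b M L hW k m t (PS W z) (fun p hp => (hPp p hp).1) hPS hWs
      ξ hξ Y (((W * M + b : ℕ) : ℝ) + Y * Λ + j * Y) Λ hY hΛ (by linarith) (by
        push_cast at hJ' ⊢
        linarith) nK hnK cU cF Λ0 δ zQ zV c' hcU hcF hcs hfl (Vp F W b z t) hV0.le v1 v2 v3 v4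
      (1 + aw) R f0 τ ε υ (by linarith) hR hf0 hτ hk hnε hεe hευ μ l hd hγμ cL (fun T => hc1 _) hcT
      (by rw [mul_comm]; exact hVV) hE hc' hzV' TT E₁ hTT hTT1 hE₁ (by
        intro Q hQ hQz V hV i u
        have hQp : ∀ p ∈ Q, p.Prime := fun p hp => (hPp p (hQ hp)).1
        have hD0 : 0 < W * ((∏ p ∈ Q, p) * DT pp V) :=
          Nat.mul_pos hW (Nat.mul_pos (prod_pos fun p hp => (hQp p hp).pos) (DT_pos pp hpr V))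
        obtain ⟨h1, h2⟩ := hbl j hj i (W * ((∏ p ∈ Q, p) * DT pp V)) hD0 (dvd_mul_right _ _)
          (Nat.mul_le_mul_left _ (Nat.mul_le_mul hQz hV)) u
        constructor
        · rw [hCe] at h1
          have h3 := bl_one X ε υ hX c Y _ u E₁ W hWs Q hQp (fun p hp s => hPS p (hQ hp) s) V h1
          refine le_trans (le_of_eq ?_) h3
          congr 1
        · refine le_trans (le_of_eq ?_) h2
          congr 1
          refine Eq.trans ?_ (del_rmd pp V (rmd Dq Y (((W * M + b : ℕ) : ℝ) + Y * Λ + j * Y + W * t i)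
            (W * ((∏ p ∈ Q, p) * DT pp V)) u))
          refine sum_congr rfl fun T _ => ?_
          congr) wb hwb hwb1 hw0
    exact h
  have hup := centres (Ioc M (M + L)) (gdc Dq F X ϖ aw bw nε nz nυ W b t m M L) Y
    (((W * M + b : ℕ) : ℝ) + Y * Λ) ((Ab k ε * 2 ^ c'') ^ 2 * 2 ^ k) hY0 W b J'
    (fun K => (if ∀ p ∈ PS W z, ¬ p ∣ nK K then 1 else 0) *
          (Lam none (qq Dq pp) μ (yf l R k) (ξ K) ^ 2 * (∑ i, wb K i - m))) _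
    (by
      unfold gdc
      exact filter_subset _ _) (by positivity) (by
      intro K hK
      refine pt_upc F g hF hGF X ϖ aw bw υ' ((Ab k ε * 2 ^ c'') ^ 2)
        (Lam none (qq Dq pp) μ (yf l R k) (ξ K) ^ 2) nε nz nυ W b z k m M L t hX hϖ hb hυ' hab hbW hz2 K
        hK (sq_nonneg _) ?_ (nK K) (hnK K)
      apply Lam_fin' k R hR ε hnε υ hευ (qq Dq pp) μ l _ hd none (ξ K) c''
      refine few_c (G1 Dq) 2 (G1_bd hD hD4) W b NT k c'' X K ε υ hnε t hN hW hc'' e4 ?_ (ξ K) (fun s j => hξ K s j)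
      rw [mem_Ioc] at hK
      omega) hcen
  exact hup

end Pool.Agent.T2h76Q.MT.E
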