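import Pool.Agent.T2h76Q.Mt7
import Pool.Agent.T2h76R.Rm5
/-! The remainder of the weighted sums. -/

set_option autoImplicit false
set_option linter.unusedSectionVars false

namespace Pool.Agent.T2h76Q.MT.E

open Pool.Agent.T2h76R (HasWeylE)
open Pool.Agent.T2h76 Pool.Agent.T2h76.MT

open Finset Filter
open Pool.Agent.R498.MT
open Pool.Agent.W23.DC
open Pool.Agent.Y677.RSZ (rt Sys rhoT per_mod)
open Pool.Agent.Y882 (VV)

variable {Dq : ℤ} {q₀ : ℕ}

/-- the bilinear remainder -/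
theorem bil_rr (hw : HasWeylE Dq q₀) : ∃ Cb : ℝ, 0 < Cb ∧ ∀ (N : ℕ) (N0 : ℝ) (q : ℕ) (u : ℤ), 3 ≤ N →
    (3 : ℝ) ≤ (N : ℝ) ^ (9868 / 100000000 : ℝ) → |N0| ≤ 3 * N → 1 ≤ q → q₀ ∣ q →
    (q : ℝ) ≤ (N : ℝ) ^ (1 / 50000 : ℝ) →
    ∀ a b : ℕ → ℝ, (∀ m, |a m| ≤ 1) → (∀ k, |b k| ≤ 1) → (∀ k, b k ≠ 0 → Squarefree k) →
    |∑ m ∈ Icc 1 ⌊((N ^ 2 : ℕ) : ℝ) ^ (4991 / 10000 : ℝ)⌋₊,
      ∑ k ∈ Icc 1 ⌊((N ^ 2 : ℕ) : ℝ) ^ (411 / 10000 : ℝ)⌋₊,
        if Nat.Coprime m k then a m * (b k * Pool.Agent.T2h76Q.rr Dq ((N : ℝ) ^ (9989 / 10000 : ℝ)) N0 q u (m * k))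
          else 0| ≤ Cb * ((N : ℝ) ^ (9989 / 10000 : ℝ)) ^ (1 - 1 / 2000 / 12 : ℝ) := by
  classical
  obtain ⟨Cb, hCb, HB⟩ := E.bil hw (1 / 2000) (12 / 10000) (by norm_num) (by norm_num) (by norm_num)
  refine ⟨Cb, hCb, ?_⟩
  intro N N0 q u e4 e1 hN0 hq1 hq0 hqN a b ha hb hbs
  have hNr : (3 : ℝ) ≤ N := by exact_mod_cast e4
  have hNp : (0 : ℝ) < N := by linarith
  have hN1r : (1 : ℝ) ≤ N := by linarith
  set Y : ℝ := (N : ℝ) ^ (9989 / 10000 : ℝ) with hY
  have hY1 : 1 ≤ Y := Real.one_le_rpow hN1r (by norm_num)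
  have hYp : ∀ s : ℝ, Y ^ s = (N : ℝ) ^ (9989 / 10000 * s) := by
    intro s
    rw [hY, ← Real.rpow_mul hNp.le]
  have hXp : ∀ s : ℝ, ((N ^ 2 : ℕ) : ℝ) ^ s = (N : ℝ) ^ (2 * s) := by
    intro s
    push_cast
    rw [← Real.rpow_natCast, ← Real.rpow_mul hNp.le]
    norm_num
  have h1 := HB Y N0 ⌊((N ^ 2 : ℕ) : ℝ) ^ (4991 / 10000 : ℝ)⌋₊ ⌊((N ^ 2 : ℕ) : ℝ) ^ (411 / 10000 : ℝ)⌋₊ q u
      a (fun k => if Nat.Coprime k q then b k else 0) hY1 hq1 hq0 ha (by
        intro k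
        show |if Nat.Coprime k q then b k else 0| ≤ 1
        split_ifs
        · exact hb k
        · simp) (by
        intro k hk
        have hk' : (if Nat.Coprime k q then b k else 0) ≠ 0 := hk
        split_ifs at hk' with h2
        · exact ⟨hbs k hk', h2⟩
        · exact absurd rfl hk') (by
        refine hN0.trans ?_
        rw [hYp]
        have : (9989 / 10000 * (1 + 12 / 10000) : ℝ) = 1 + 9868 / 100000000 := by norm_num
        rw [this, Real.rpow_add hNp, Real.rpow_one]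
        calc (3 : ℝ) * N = N * 3 := by ring
          _ ≤ _ := mul_le_mul_of_nonneg_left e1 hNp.le) (by
        refine hqN.trans ?_
        rw [hYp]
        apply Real.rpow_le_rpow_of_exponent_le hN1r
        norm_num) (by
        refine (Nat.floor_le (by positivity)).trans ?_
        rw [hYp, hXp]
        apply Real.rpow_le_rpow_of_exponent_le hN1r
        norm_num) (by
        refine (Nat.floor_le (by positivity)).trans ?_
        rw [hYp, hXp]
        apply Real.rpow_le_rpow_of_exponent_le hN1r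
        norm_num)
  refine le_trans (le_of_eq ?_) h1
  congr 1
  apply sum_congr rfl
  intro m _
  apply sum_congr rfl
  intro k _
  unfold Pool.Agent.T2h76Q.rr
  by_cases h2 : Nat.Coprime m k
  · rw [if_pos h2]
    by_cases h3 : Nat.Coprime m q
    · rw [if_pos (Nat.Coprime.mul_right h2 h3)]
      by_cases h4 : Nat.Coprime k q
      · rw [if_pos h4, if_pos (Nat.Coprime.mul_left h3 h4)]
      · rw [if_neg h4, if_neg (fun h => h4 (Nat.Coprime.coprime_mul_left h))]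
        ring
    · rw [if_neg (fun h => h3 (Nat.Coprime.coprime_mul_left_right h)),
        if_neg (fun h => h3 (Nat.Coprime.coprime_mul_right h))]
      ring
  · rw [if_neg h2, if_neg (fun h => h2 (Nat.Coprime.coprime_mul_right_right h))]

end Pool.Agent.T2h76Q.MT.E
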