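import Pool.Agent.R498.MT.Fin0
import Pool.Agent.R498.MT.Core0
import Pool.Agent.Y677.RSZ.Eng1

/-! The modulus and the class. -/

set_option autoImplicit false

namespace Pool.Agent.T2h76R

open Finset
open Pool.Agent.Y677.RSZ (rt Sys)

theorem per_int {F : ℤ → ℤ} (hF : ∀ p : ℕ, p.Prime → ∀ n : ℤ, (p : ℤ) ∣ F (n + p) - F n) {p : ℕ}
    (hp : p.Prime) (m n : ℤ) (h : (p : ℤ) ∣ m - n) (hm : (p : ℤ) ∣ F m) : (p : ℤ) ∣ F n := by
  obtain ⟨s, hs⟩ := h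
  rcases Int.le_total 0 s with h0 | h0
  · obtain ⟨k, rfl⟩ := Int.eq_ofNat_of_zero_le h0
    have h1 := Pool.Agent.Y677.RSZ.per_mul hF hp n k
    have e : n + (k : ℤ) * p = m := by linarith
    rw [e] at h1
    exact (Int.dvd_iff_dvd_of_dvd_sub h1).1 hm
  · obtain ⟨k, hk⟩ := Int.eq_ofNat_of_zero_le (neg_nonneg.2 h0)
    have h1 := Pool.Agent.Y677.RSZ.per_mul hF hp m k
    have e : m + (k : ℤ) * p = n := by
      have : s = -(k : ℤ) := by rw [← hk]; ring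
      rw [this] at hs
      linarith
    rw [e] at h1
    exact (Int.dvd_iff_dvd_of_dvd_sub h1).2 hm

/-- the modulus, with a given divisor, and the class, in a given class of the divisor -/
theorem exWQ (A g Q : ℕ) (hQ : 1 ≤ Q) : ∃ W : ℕ, 0 < W ∧ Q ∣ W ∧ (∀ p : ℕ, p.Prime → p ≤ A → p ∣ W) ∧
    g ≤ W ∧ ∀ (F : ℤ → ℤ) (g' : ℕ), Sys g' F → ∀ u : ℤ, (∀ p : ℕ, p.Prime → p ∣ Q → ¬ (p : ℤ) ∣ F u) →
      ∃ b < W, (Q : ℤ) ∣ (b : ℤ) - u ∧ ∀ p : ℕ, p.Prime → p ∣ W → ¬ (p : ℤ) ∣ F b := by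
  classical
  set P : Finset ℕ := (range (A + 2 * g + 3)).filter (fun p => p.Prime ∧ ¬ p ∣ Q) with hP
  have hPp : ∀ p ∈ P, p.Prime ∧ ¬ p ∣ Q := fun p hp => (mem_filter.1 hp).2
  set W₁ : ℕ := ∏ p ∈ P, p with hW₁
  have hW₁0 : 0 < W₁ := prod_pos fun p hp => (hPp p hp).1.pos
  have hsq : Squarefree W₁ := by
    apply Finset.squarefree_prod_of_pairwise_isCoprime
    · intro a ha b hb hab
      exact Nat.coprime_iff_isRelPrime.1 ((Nat.coprime_primes (hPp a ha).1 (hPp b hb).1).2 hab)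
    · intro p hp
      exact (hPp p hp).1.prime.squarefree
  have hcop : Nat.Coprime Q W₁ := by
    apply Nat.Coprime.prod_right
    intro p hp
    exact ((hPp p hp).1.coprime_iff_not_dvd.2 (hPp p hp).2).symm
  have hall : ∀ p : ℕ, p.Prime → p ≤ A + 2 * g + 2 → p ∣ Q * W₁ := by
    intro p hp hpA
    by_cases h : p ∣ Q
    · exact h.mul_right _
    · refine Dvd.dvd.mul_left ?_ _
      apply dvd_prod_of_mem (fun p => p)
      rw [hP, mem_filter, mem_range]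
      exact ⟨by omega, hp, h⟩
  refine ⟨Q * W₁, Nat.mul_pos hQ hW₁0, dvd_mul_right _ _, fun p hp hpA => hall p hp (by omega), ?_, ?_⟩
  · rcases Nat.eq_zero_or_pos g with h0 | h0
    · omega
    · obtain ⟨p, hp, hp1, hp2⟩ := Nat.exists_prime_lt_and_le_two_mul g (by omega)
      exact hp1.le.trans (Nat.le_of_dvd (Nat.mul_pos hQ hW₁0) (hall p hp (by omega)))
  · intro F g' hF u hu
    obtain ⟨b₁, _, hb₁⟩ := Pool.Agent.R498.MT.exb' hF W₁ hW₁0 hsq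
    have hQ0 : (0 : ℤ) < Q := by exact_mod_cast hQ
    obtain ⟨u₁, hu₁⟩ : ∃ u₁ : ℕ, (u₁ : ℤ) = u % Q := ⟨(u % Q).toNat, by
      rw [Int.toNat_of_nonneg (Int.emod_nonneg _ hQ0.ne')]⟩
    obtain ⟨x, hx1, hx2⟩ := Nat.chineseRemainder hcop u₁ b₁
    have hWpos : 0 < Q * W₁ := Nat.mul_pos hQ hW₁0
    refine ⟨x % (Q * W₁), Nat.mod_lt _ hWpos, ?_, ?_⟩
    · have e1 : (Q : ℤ) ∣ ((x % (Q * W₁) : ℕ) : ℤ) - x := by
        have h1 : (x % (Q * W₁)) ≡ x [MOD (Q * W₁)] := Nat.mod_modEq _ _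
        have h2 : (x % (Q * W₁)) ≡ x [MOD Q] := h1.of_mul_right W₁
        exact (Nat.modEq_iff_dvd.1 h2.symm)
      have e2 : (Q : ℤ) ∣ (x : ℤ) - u₁ := Nat.modEq_iff_dvd.1 hx1.symm
      have e3 : (Q : ℤ) ∣ (u₁ : ℤ) - u := by
        rw [hu₁]
        have : (Q : ℤ) ∣ u - u % Q := Int.dvd_self_sub_emod
        have e : u % Q - u = -(u - u % Q) := by ring
        rw [e]
        exact (dvd_neg).2 this
      have e : ((x % (Q * W₁) : ℕ) : ℤ) - u = (((x % (Q * W₁) : ℕ) : ℤ) - x) + (x - u₁) + (u₁ - u) := by ring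
      rw [e]
      exact dvd_add (dvd_add e1 e2) e3
    · intro p hp hpW hpF
      have h1 : (x % (Q * W₁)) ≡ x [MOD (Q * W₁)] := Nat.mod_modEq _ _
      have h1p : (x % (Q * W₁)) ≡ x [MOD p] := h1.of_dvd hpW
      rcases (Nat.Prime.dvd_mul hp).1 hpW with h | h
      · apply hu p hp h
        have h2 : (p : ℤ) ∣ ((x % (Q * W₁) : ℕ) : ℤ) - u := by
          have hpQ : (p : ℤ) ∣ (Q : ℤ) := by exact_mod_cast h
          have e1 : (p : ℤ) ∣ ((x % (Q * W₁) : ℕ) : ℤ) - x := Nat.modEq_iff_dvd.1 h1p.symm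
          have e2 : (p : ℤ) ∣ (x : ℤ) - u₁ := hpQ.trans (Nat.modEq_iff_dvd.1 hx1.symm)
          have e3 : (p : ℤ) ∣ (u₁ : ℤ) - u := by
            rw [hu₁]
            have : (Q : ℤ) ∣ u - u % Q := Int.dvd_self_sub_emod
            have e : u % Q - u = -(u - u % Q) := by ring
            rw [e]
            exact hpQ.trans ((dvd_neg).2 this)
          have e : ((x % (Q * W₁) : ℕ) : ℤ) - u = (((x % (Q * W₁) : ℕ) : ℤ) - x) + (x - u₁) + (u₁ - u) := by ring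
          rw [e]
          exact dvd_add (dvd_add e1 e2) e3
        exact per_int hF.per hp _ _ h2 hpF
      · apply hb₁ p hp h
        have h2 : (p : ℤ) ∣ ((x % (Q * W₁) : ℕ) : ℤ) - b₁ := by
          have hpQ : (p : ℤ) ∣ (W₁ : ℤ) := by exact_mod_cast h
          have e1 : (p : ℤ) ∣ ((x % (Q * W₁) : ℕ) : ℤ) - x := Nat.modEq_iff_dvd.1 h1p.symm
          have e2 : (p : ℤ) ∣ (x : ℤ) - b₁ := hpQ.trans (Nat.modEq_iff_dvd.1 hx2.symm)
          have e : ((x % (Q * W₁) : ℕ) : ℤ) - b₁ = (((x % (Q * W₁) : ℕ) : ℤ) - x) + (x - b₁) := by ring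
          rw [e]
          exact dvd_add e1 e2
        exact per_int hF.per hp _ _ h2 hpF

end Pool.Agent.T2h76R
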