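import Pool.Agent.T2h76Q.Mt15
import Pool.Agent.T2h76R.Mt13
/-! Clusters of products of at most two primes in narrow progressions. -/

set_option autoImplicit false
set_option linter.unusedSectionVars false

namespace Pool.Agent.T2h76Q.MT.E

open Pool.Agent.T2h76R (HasWeylE)
open Pool.Agent.T2h76 Pool.Agent.T2h76.MT

open Finset Filter Polynomial
open Pool.Agent.R498.MT
open Pool.Agent.Y677.RSZ (rt Sys rhoT per_mod ev_log V eng_all)
open Pool.Agent.TH423.SH (PS)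
open Pool.Agent.W23.DC
open Pool.Agent.Y882.SI (QF QF_eval)

variable {Dq : ℤ} {q₀ : ℕ}

/-- **Clusters of almost prime values in narrow progressions.** -/
theorem fin2C (hWe : HasWeylE Dq q₀) (hD4 : |Dq| ≤ 4) (P : ℤ[X]) (hP : P ≠ 0) (g : ℕ) (hg1 : 1 ≤ g) (hF : Sys g (fun n => P.eval n))
    (hG : Sys g (G1 Dq))
    (hGF : ∀ p : ℕ, p.Prime → ∀ n : ℤ, (p : ℤ) ∣ (G1 Dq) n → (p : ℤ) ∣ P.eval n)
    (Qc : ℕ) (hQc : 1 ≤ Qc) (hq0c : q₀ ∣ Qc) (uc : ℤ)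
    (huc : ∀ p : ℕ, p.Prime → p ∣ Qc → ¬ (p : ℤ) ∣ P.eval uc) (KK q0 : ℕ)
    (hSq : ∀ q : ℕ, q.Prime → q0 ≤ q → ∀ N H : ℕ,
      ((((Icc 1 H).filter (fun j : ℕ => ((q ^ 2 : ℕ) : ℤ) ∣ (G1 Dq) ((N + j : ℕ) : ℤ))).card : ℕ) : ℝ) ≤
        KK * (H * (1 / (q : ℝ) ^ 2) + 1)) (m : ℕ) :
    ∃ K₀ : ℕ, ∀ HH : Finset ℕ, K₀ ≤ HH.card → ∃ δ : ℝ, 0 < δ ∧ ∀ l : ℕ, 2 ≤ l →
      ∃ B : ℕ, ∀ᶠ N : ℕ in atTop,
      ∃ H ⊆ HH, H.card = m ∧ ∃ n d : ℕ, N < n ∧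
        ((n + (l - 1) * d : ℕ) : ℝ) ≤ N + (N : ℝ) ^ (999 / 1000 : ℝ) ∧ 1 ≤ d ∧
        (d : ℝ) ≤ Real.log N ^ B ∧ ∀ j < l, ∀ h ∈ H,
          (Qc : ℤ) ∣ ((n + j * d + h : ℕ) : ℤ) - uc ∧
          (((n + j * d + h : ℕ) : ℤ) ^ 2 - Dq).natAbs.primeFactorsList.length ≤ 2 ∧
          (∀ p : ℕ, p.Prime → (p : ℤ) ∣ ((n + j * d + h : ℕ) : ℤ) ^ 2 - Dq →
            (N : ℝ) ^ (6 / 25 : ℝ) ≤ p) ∧
          ∀ p : ℕ, p.Prime → (p : ℤ) ∣ P.eval ((n + j * d + h : ℕ) : ℤ) → (N : ℝ) ^ δ ≤ p := by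
  classical
  obtain ⟨k, W, hW0, hQW, hWp, hgW, hWb, ϖ, c, nε, nz, nυ, hϖ, hϖ4, hε, hε10, ez, eυ, hc, hcore⟩ :=
    coreC hWe hD4 (fun n => P.eval n) g hF hG hGF m Qc hQc hq0c
  have hu0 : Pool.Agent.T2h76.u0 = 1102 / 100000 := rfl
  obtain ⟨ε₁, hε₁⟩ : ∃ ε₁ : ℝ, ε₁ = 2 * (ϖ * nε) := ⟨_, rfl⟩
  have hε0 : 0 < ε₁ := by rw [hε₁]; linarith
  have hε5 : ε₁ ≤ 1 / 5 := by rw [hε₁]; linarith
  have hζ0 : 0 < 2 * (ϖ * nz) := by
    have : ϖ * nz = 11 * Pool.Agent.T2h76.u0 - ϖ / 2 := by linarith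
    rw [this, hu0]
    linarith
  have hυ0 : 2 * (ϖ * nυ) < 99895 / 100000 := by
    have : ϖ * nυ = 45 * Pool.Agent.T2h76.u0 - ϖ / 2 := by linarith
    rw [this, hu0]
    linarith
  have hW2 : 2 ≤ W := by
    have h1 : 2 ∣ W := hWp 2 Nat.prime_two (by
      have : 1 ≤ g * 2 ^ k := Nat.mul_pos hg1 (by positivity)
      omega)
    exact Nat.le_of_dvd hW0 h1
  refine ⟨W * 2 ^ k, ?_⟩
  intro HH hHH
  obtain ⟨r, t, hrW, ht, hmem⟩ := shifts W (2 ^ k) hW0 HH hHH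
  obtain ⟨b, hbW, hbu, hb⟩ := hWb (fun n => P.eval n) g hF uc huc
  obtain ⟨Y₀, hcore⟩ := hcore t ht b hb
  obtain ⟨g', hS⟩ := PP_sys P hP g hF W b t hWp hb
  obtain ⟨KP, DP, hKD⟩ := Pool.Agent.W123.RU.Poly.eval_bound (PP P W t)
  obtain ⟨n₀, hn₀⟩ := Pool.Agent.Y677.RSZ.ne_zero_ev (PP P W t) (PP_ne P hP W t)
  set κ : ℝ := c / (2 * 2 ^ 2 ^ k) / W with hκ
  have hW0r : (0 : ℝ) < W := by exact_mod_cast hW0
  have hκ0 : 0 < κ := by positivity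
  refine ⟨ε₁, hε0, fun l hl => ?_⟩
  obtain ⟨B, H₀, hB⟩ := eng_all l (g' + 4 * (DP + 1)) (ε₁ / 2) κ hl (by positivity) hκ0
  obtain ⟨NT, hNT⟩ : ∃ NT : ℕ, ∀ i, t i ≤ NT :=
    ⟨univ.sup t, fun i => Finset.le_sup (f := t) (mem_univ i)⟩
  refine ⟨B, ?_⟩
  have hnums := nums2 W r (n₀ + W) KP H₀ q0 Y₀ NT (2 * (g * 2 ^ k) + 2) b
    (8 * (2 ^ k * KK * W) / c) (4 * (2 ^ k * KK) / c) (2 * (ϖ * nz)) (2 * (ϖ * nυ)) hW2 hrW hζ0 hυ0
  filter_upwards [hnums] with N hN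
  obtain ⟨n1, n2, n3, n4, n5, n6, n7, n8, n9, n10, L, l1, l2, l3, l4, l5, l6⟩ := hN
  have hNr : (3 : ℝ) ≤ N := by exact_mod_cast n1
  have hN0 : (0 : ℝ) < N := by linarith
  have hN1 : (1 : ℝ) ≤ N := by linarith
  have hXp : ∀ s : ℝ, ((N ^ 2 : ℕ) : ℝ) ^ s = (N : ℝ) ^ (2 * s) := by
    intro s
    push_cast
    rw [← Real.rpow_natCast, ← Real.rpow_mul hN0.le]
    norm_num
  obtain ⟨M, hM⟩ : ∃ M : ℕ, M = (N + r) / W := ⟨_, rfl⟩
  obtain ⟨z, hz⟩ : ∃ z : ℕ, z + 1 = ⌈(N : ℝ) ^ ε₁⌉₊ := by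
    have : 1 ≤ ⌈(N : ℝ) ^ ε₁⌉₊ := Nat.ceil_pos.2 (by positivity)
    exact ⟨⌈(N : ℝ) ^ ε₁⌉₊ - 1, by omega⟩
  have hz1 : (z : ℝ) < (N : ℝ) ^ ε₁ := by
    have h1 := Nat.ceil_lt_add_one (show 0 ≤ (N : ℝ) ^ ε₁ by positivity)
    rw [← hz] at h1
    push_cast at h1
    linarith
  have hz2 : (N : ℝ) ^ ε₁ ≤ z + 1 := by
    have h1 := Nat.le_ceil ((N : ℝ) ^ ε₁)
    rw [← hz] at h1
    push_cast at h1
    exact h1
  have hWM : W * M ≤ N + r := by rw [hM]; exact Nat.mul_div_le _ _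
  obtain ⟨hgd, hV0, hV1⟩ := hcore N n2 M L z l2 (by rw [hM]; exact l5) (by
      have h5 : W * (M + L) = W * M + W * L := by ring
      omega) (by rw [hXp, ← hε₁]; exact hz1) (by rw [hXp, ← hε₁]; exact hz2)
  obtain ⟨Hs, A, hHs, hA1, hA2⟩ := manyC (fun n => P.eval n) KK q0 W b M L N k m
    (2 * (g * 2 ^ k) + 2) ϖ 1.0172 (1.0172 / (45 * Pool.Agent.T2h76.u0)) c
    (Vp (fun n => P.eval n) W b z t) nε nz nυ hSq hW0 n1 hϖ n5 t hc hV0 hV1 hgd l2 n9 n10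
  rw [← hε₁] at hA2
  -- the progression
  have hbds : ∀ K ∈ Ioc M (M + L), N + r < W * K + b ∧ W * K + b ≤ N + r + W * L + b := by
    intro K hK
    rw [mem_Ioc] at hK
    have h1 : N + r < W * (M + 1) := by
      rw [hM]
      exact Nat.lt_mul_div_succ (N + r) hW0
    have h2 : W * (M + 1) ≤ W * K := Nat.mul_le_mul_left _ (by omega)
    have h3 : W * K ≤ W * (M + L) := Nat.mul_le_mul_left _ hK.2
    have h5 : W * (M + L) = W * M + W * L := by ring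
    refine ⟨by omega, by omega⟩
  have hWL : ((N : ℝ)) ^ (1 / 2 : ℝ) ≤ ((W * L : ℕ) : ℝ) := by
    refine l6.trans ?_
    have : L ≤ W * L := Nat.le_mul_of_pos_left _ hW0
    exact_mod_cast this
  have hWL1 : 1 ≤ W * L := by
    have h1 : (1 : ℝ) ≤ ((W * L : ℕ) : ℝ) := le_trans (Real.one_le_rpow hN1 (by norm_num)) hWL
    exact_mod_cast h1
  have hWLr : (1 : ℝ) ≤ ((W * L : ℕ) : ℝ) := by exact_mod_cast hWL1
  have hWLN : ((W * L : ℕ) : ℝ) ≤ N := by exact_mod_cast (by omega : W * L ≤ N)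
  obtain ⟨a, d, hd1, hd2, had⟩ := hB (fun n => (PP P W t).eval n) (W * M + b) (W * L)
    (A.image (fun K => W * K + b)) (Pool.Agent.Y677.RSZ.Sys.mono hS (by omega)) l3
    (by
      intro n hn
      rw [mem_Ioc] at hn
      have h6 : N + r < W * (M + 1) := by
        rw [hM]
        exact Nat.lt_mul_div_succ (N + r) hW0
      have h7 : W * (M + 1) = W * M + W := by ring
      have hn1 : n ≤ 3 * N := by omega
      have hn2 : N ≤ n + W := by omega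
      refine ⟨?_, ?_⟩
      · exact hn₀ n (by omega)
      · have h8 := size_P (PP P W t) KP DP N (W * L) hKD (by omega) n4 hWL n (by
          refine le_trans ?_ n6
          have : n + 1 ≤ 3 * N + W * NT + 1 := by omega
          exact_mod_cast this)
        refine h8.trans ?_
        exact pow_le_pow_right₀ (by exact_mod_cast hWL1) (by omega))
    (by
      intro x hx
      rw [mem_image] at hx
      obtain ⟨K, hK, rfl⟩ := hx
      have h1 := (hA2 K hK).1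
      rw [mem_Ioc] at h1 ⊢
      have h2 : W * (M + 1) ≤ W * K := Nat.mul_le_mul_left _ (by omega)
      have h3 : W * K ≤ W * (M + L) := Nat.mul_le_mul_left _ h1.2
      have h5 : W * (M + L) = W * M + W * L := by ring
      have h7 : W * (M + 1) = W * M + W := by ring
      constructor <;> omega)
    (by
      intro x hx p hp hpH hdvd
      rw [mem_image] at hx
      obtain ⟨K, hK, rfl⟩ := hx
      obtain ⟨i, hi⟩ := (PP_dvd P W b t p hp K).1 hdvd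
      refine (hA2 K hK).2.1 p hp ?_ i hi
      refine hpH.trans_lt ?_
      calc ((W * L : ℕ) : ℝ) ^ (ε₁ / 2) ≤ (N : ℝ) ^ (ε₁ / 2) :=
            Real.rpow_le_rpow (by positivity) hWLN (by positivity)
        _ < (N : ℝ) ^ ε₁ := Real.rpow_lt_rpow_of_exponent_lt (by linarith) (by linarith))
    (by
      rw [card_image_of_injective _ (fun K K' hKK => by
        have h1 : W * K + b = W * K' + b := hKK
        have h2 : W * K = W * K' := by omega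
        exact Nat.eq_of_mul_eq_mul_left hW0 h2)]
      refine le_trans ?_ hA1
      have hzWL : z ≤ W * L := by
        have h1 : (z : ℝ) ≤ ((W * L : ℕ) : ℝ) := by
          refine hz1.le.trans (le_trans ?_ hWL)
          exact Real.rpow_le_rpow_of_exponent_le hN1 (by linarith)
        exact_mod_cast h1
      have h1 := PP_V P g hF W b z (W * L) t hzWL
      calc κ * ((W * L : ℕ) * V (fun n => (PP P W t).eval n) 1 (W * L)) ≤
          κ * ((W * L : ℕ) * Vp (fun n => P.eval n) W b z t) := by gcongr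
        _ = c / (2 * 2 ^ 2 ^ k) * (L * Vp (fun n => P.eval n) W b z t) := by
            rw [hκ]
            push_cast
            field_simp)
  have hpt : ∀ j < l, ∃ K ∈ A, W * K + b = a + j * d := by
    intro j hj
    have h1 := had j hj
    rw [mem_image] at h1
    obtain ⟨K, hK, h2⟩ := h1
    exact ⟨K, hK, h2⟩
  obtain ⟨K0, hK0, hK0a⟩ := hpt 0 (by omega)
  rw [zero_mul, add_zero] at hK0a
  obtain ⟨K1, hK1, hK1a⟩ := hpt (l - 1) (by omega)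
  have hb0 := hbds K0 (hA2 K0 hK0).1
  have hb1 := hbds K1 (hA2 K1 hK1).1
  rw [hK0a] at hb0
  rw [hK1a] at hb1
  refine ⟨Hs.image (fun i => W * t i + r), ?_, ?_, a - r, d, by omega, ?_, hd1, ?_, ?_⟩
  · intro h hh
    rw [mem_image] at hh
    obtain ⟨i, _, rfl⟩ := hh
    exact hmem i
  · rw [card_image_of_injective _ (fun i j hij => by
      have h1 : W * t i + r = W * t j + r := hij
      have h2 : W * t i = W * t j := by omega
      exact ht (Nat.eq_of_mul_eq_mul_left hW0 h2))]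
    exact hHs
  · have h1 : a - r + (l - 1) * d ≤ N + ⌊(N : ℝ) ^ (999 / 1000 : ℝ)⌋₊ := by
      have h2 : W * (L + 1) = W * L + W := by ring
      omega
    have h2 : ((a - r + (l - 1) * d : ℕ) : ℝ) ≤ N + (⌊(N : ℝ) ^ (999 / 1000 : ℝ)⌋₊ : ℝ) := by
      exact_mod_cast h1
    have h3 : (⌊(N : ℝ) ^ (999 / 1000 : ℝ)⌋₊ : ℝ) ≤ (N : ℝ) ^ (999 / 1000 : ℝ) :=
      Nat.floor_le (by positivity)
    linarith
  · refine hd2.trans ?_
    apply pow_le_pow_left₀ (Real.log_nonneg hWLr)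
    exact Real.log_le_log (by linarith) hWLN
  · intro j hj h hh
    rw [mem_image] at hh
    obtain ⟨i, hi, rfl⟩ := hh
    obtain ⟨K, hK, hKa⟩ := hpt j hj
    have e : a - r + j * d + (W * t i + r) = W * (K + t i) + b := by
      have h1 := pt_eq W b r K (t i) (a + j * d) hKa (by omega)
      omega
    rw [e]
    obtain ⟨hK1', hK2', hK3'⟩ := hA2 K hK
    obtain ⟨hw, hsq⟩ := hK3' i hi
    have hbK := hbds K hK1'
    have hx : W * (K + t i) + b ≤ 2 * N := by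
      have h1 : W * t i ≤ W * NT := Nat.mul_le_mul_left _ (hNT i)
      have h2 : W * (K + t i) = W * K + W * t i := by ring
      omega
    have hsize : |((W * (K + t i) + b : ℕ) : ℤ) ^ 2 - Dq| ≤ 5 * (N : ℤ) ^ 2 := by
      have h1 : (((W * (K + t i) + b : ℕ) : ℤ)) ^ 2 ≤ (2 * N) ^ 2 := by
        exact_mod_cast Nat.pow_le_pow_left hx 2
      have h2 : (2 * (N : ℤ)) ^ 2 = 4 * (N : ℤ) ^ 2 := by ring
      have h3 : (9 : ℤ) ≤ (N : ℤ) ^ 2 := by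
        have : (3 : ℤ) ≤ N := by exact_mod_cast n1
        nlinarith
      have h4 := abs_le.1 hD4
      have h5 : 0 ≤ (((W * (K + t i) + b : ℕ) : ℤ)) ^ 2 := sq_nonneg _
      rw [abs_le]
      constructor
      · linarith [h4.2]
      · linarith [h4.1]
    have hone := one_el hWe.nsq N ϖ nz nυ hϖ hϖ4 ez eυ (by omega) n7 ((W * (K + t i) + b : ℕ) : ℤ) hsize hw
      (by
        rintro ⟨q, hq, hqd⟩
        exact hsq q hq hqd)
    have hcls : (Qc : ℤ) ∣ ((W * (K + t i) + b : ℕ) : ℤ) - uc := by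
      have hQWz : (Qc : ℤ) ∣ (W : ℤ) := by exact_mod_cast hQW
      have e1 : ((W * (K + t i) + b : ℕ) : ℤ) - uc = (W : ℤ) * (K + t i : ℕ) + (b - uc) := by
        push_cast
        ring
      rw [e1]
      exact dvd_add (hQWz.mul_right _) hbu
    refine ⟨hcls, hone.1, hone.2, fun p hp hpd => ?_⟩
    by_contra hcon
    push Not at hcon
    exact hK2' p hp hcon i hpd

/-- the values `x ^ 2 - Dq` in `P₂` and `f x` almost prime, in clusters repeated along narrow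
progressions -/
theorem sys2 (hWe : HasWeylE Dq q₀) (hD4 : |Dq| ≤ 4) (f : ℤ[X]) (hf : f ≠ 0)
    (Qc : ℕ) (hQc : 1 ≤ Qc) (hq0c : q₀ ∣ Qc) (uc : ℤ)
    (huc : ∀ p : ℕ, p.Prime → p ∣ Qc → ¬ (p : ℤ) ∣ (uc ^ 2 - Dq) * f.eval uc)
    (hadm : ∀ p : ℕ, p.Prime → ¬ p ∣ Qc → ∃ n : ℤ, ¬ (p : ℤ) ∣ (n ^ 2 - Dq) * f.eval n)
    (m : ℕ) :
    ∃ K : ℕ, ∀ S : Finset ℕ, K ≤ S.card → ∃ (r : ℕ) (δ : ℝ), 0 < δ ∧ ∀ l : ℕ,
      ∃ B' : ℕ, ∀ᶠ N : ℕ in atTop, ∃ H ⊆ S, H.card = m ∧ ∃ n d : ℕ, 1 ≤ d ∧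
        (d : ℝ) ≤ Real.log N ^ B' ∧ ∀ j < l, N < n + j * d ∧
          ((n + j * d : ℕ) : ℝ) ≤ N + (N : ℝ) ^ (999 / 1000 : ℝ) ∧ ∀ h ∈ H,
          (Qc : ℤ) ∣ ((n + j * d + h : ℕ) : ℤ) - uc ∧
          (((n + j * d + h : ℕ) : ℤ) ^ 2 - Dq).natAbs.primeFactorsList.length ≤ 2 ∧
          (∀ p : ℕ, p.Prime → (p : ℤ) ∣ ((n + j * d + h : ℕ) : ℤ) ^ 2 - Dq →
            (N : ℝ) ^ (6 / 25 : ℝ) ≤ p) ∧
          (f.eval ((n + j * d + h : ℕ) : ℤ)).natAbs.primeFactorsList.length ≤ r ∧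
          ∀ p : ℕ, p.Prime → (p : ℤ) ∣ f.eval ((n + j * d + h : ℕ) : ℤ) → (N : ℝ) ^ δ ≤ p := by
  have hev : ∀ n : ℤ, (QF (-Dq) * f).eval n = (n ^ 2 - Dq) * f.eval n := fun n => by
    rw [Polynomial.eval_mul, QF_eval, ← sub_eq_add_neg]
  have hD0 : Dq ≠ 0 := by
    rintro rfl
    exact hWe.nsq ⟨0, by ring⟩
  have hP : QF (-Dq) * f ≠ 0 := mul_ne_zero (QF_ne (-Dq)) hf
  obtain ⟨g₀, hg₀⟩ := Pool.Agent.Y677.RSZ.poly_all (QF (-Dq) * f) hP (fun p hp => by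
      by_cases hpQ : p ∣ Qc
      · exact ⟨uc, by rw [hev]; exact huc p hp hpQ⟩
      · obtain ⟨n, hn⟩ := hadm p hp hpQ
        exact ⟨n, by rwa [hev]⟩)
  obtain ⟨g₁, hg₁⟩ := Pool.Agent.Y677.RSZ.poly_all (QF (-Dq)) (QF_ne (-Dq)) (QF_adm (-Dq))
  obtain ⟨K, hK⟩ := fin2C hWe hD4 (QF (-Dq) * f) hP (g₀ + g₁ + 1) (by omega)
    (Pool.Agent.Y677.RSZ.Sys.mono hg₀ (by omega))
    (by rw [G1_QF]; exact Pool.Agent.Y677.RSZ.Sys.mono hg₁ (by omega))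
    (fun p _ n hd => by
      rw [hev]
      exact hd.mul_right _)
    Qc hQc hq0c uc (fun p hp hpQ => by
      rw [hev]
      exact huc p hp hpQ)
    2 5
    (fun q hq hqa N H => by
      have h4 := abs_le.1 hD4
      have := Pool.Agent.Y882.MG.sq_countS (-Dq) (neg_ne_zero.2 hD0) q hq (by omega) (by omega) N H
      rw [G1_QF]
      exact this) m
  obtain ⟨Kf, D, hKD⟩ := Pool.Agent.W123.RU.Poly.eval_bound f
  obtain ⟨n₀, hn₀⟩ := Pool.Agent.Y677.RSZ.ne_zero_ev f hf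
  refine ⟨K, fun S hS => ?_⟩
  obtain ⟨δ, hδ, hl⟩ := hK S hS
  obtain ⟨r, hr⟩ := exists_nat_ge ((2 * D + 1 : ℝ) / δ)
  refine ⟨r, δ, hδ, fun l => ?_⟩
  obtain ⟨B', hB⟩ := hl (l + 2) (by omega)
  refine ⟨B', ?_⟩
  filter_upwards [hB, eventually_ge_atTop (Kf + n₀ + 7 + S.sup id)] with N hN hNK
  obtain ⟨H, hH, hHc, n, d, h1, h2, h3, h4, h5⟩ := hN
  have hNr : (7 : ℝ) ≤ N := by
    have : 7 ≤ N := by omega
    exact_mod_cast this
  have hN0 : (0 : ℝ) < N := by linarith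
  have hKr : (Kf : ℝ) ≤ N := by
    have : Kf ≤ N := by omega
    exact_mod_cast this
  have hin : ∀ j < l, ((n + j * d : ℕ) : ℝ) ≤ N + (N : ℝ) ^ (999 / 1000 : ℝ) := by
    intro j hj
    refine le_trans ?_ h2
    have : n + j * d ≤ n + (l + 2 - 1) * d := by
      have := Nat.mul_le_mul_right d (show j ≤ l + 2 - 1 by omega)
      omega
    exact_mod_cast this
  refine ⟨H, hH, hHc, n, d, h3, h4, fun j hj => ⟨by omega, hin j hj, fun h hh => ?_⟩⟩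
  obtain ⟨hcls, h6, h7, h8⟩ := h5 j (by omega) h hh
  have h9 : ∀ p : ℕ, p.Prime → (p : ℤ) ∣ f.eval ((n + j * d + h : ℕ) : ℤ) → (N : ℝ) ^ δ ≤ p := by
    intro p hp hpd
    apply h8 p hp
    rw [hev]
    exact hpd.mul_left _
  refine ⟨hcls, h6, h7, ?_, h9⟩
  have h11 : h ≤ N := by
    have : h ≤ S.sup id := Finset.le_sup (f := id) (hH hh)
    omega
  have h12 : (h : ℝ) ≤ N := by exact_mod_cast h11
  have h13 := hin j hj
  have h14 : (N : ℝ) ^ (999 / 1000 : ℝ) ≤ N := by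
    calc (N : ℝ) ^ (999 / 1000 : ℝ) ≤ (N : ℝ) ^ (1 : ℝ) :=
          Real.rpow_le_rpow_of_exponent_le (by linarith) (by norm_num)
      _ = N := Real.rpow_one _
  have h15 : ((n + j * d + h : ℕ) : ℝ) ≤ 3 * N := by
    push_cast at h13 ⊢
    linarith
  have h16 := hKD ((n + j * d + h : ℕ) : ℤ)
  have h17 : ((f.eval ((n + j * d + h : ℕ) : ℤ)).natAbs : ℝ) =
      |((f.eval ((n + j * d + h : ℕ) : ℤ) : ℤ) : ℝ)| := by
    rw [← Int.cast_abs, Int.abs_eq_natAbs]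
    simp
  have h18 : ((f.eval ((n + j * d + h : ℕ) : ℤ)).natAbs : ℝ) ≤
      (N : ℝ) ^ ((2 * D + 1 : ℕ) : ℝ) := by
    rw [h17]
    refine h16.trans ?_
    rw [Real.rpow_natCast, pow_succ, pow_mul, mul_comm]
    have h19 : 1 + |(((n + j * d + h : ℕ) : ℤ) : ℝ)| ≤ (N : ℝ) ^ 2 := by
      rw [Int.cast_natCast, abs_of_nonneg (Nat.cast_nonneg _)]
      nlinarith
    have h20 : (0 : ℝ) ≤ 1 + |(((n + j * d + h : ℕ) : ℤ) : ℝ)| := by positivity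
    gcongr
  have h21 := omega_le N (f.eval ((n + j * d + h : ℕ) : ℤ)).natAbs δ
    ((2 * D + 1 : ℕ) : ℝ) (by omega) hδ (by
      rw [Int.natAbs_ne_zero]
      exact hn₀ _ (by omega)) (fun p hp hpd => h9 p hp (Int.natCast_dvd.2 hpd)) h18
  have h22 : ((2 * D + 1 : ℕ) : ℝ) / δ ≤ r := by
    push_cast
    exact hr
  exact_mod_cast h21.trans h22

end Pool.Agent.T2h76Q.MT.E
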