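import Pool.Agent.T2h76R.Gm5
import Pool.Agent.TH464.PW.Quad
import Pool.Agent.Y677.RSZ.Fin

/-! Narrow progressions in dense subsets of the arguments in a residue class. -/

set_option autoImplicit false

namespace Pool.Agent.T2h76R

open Finset Filter
open Pool.Agent.W123.RU Pool.Agent.TH464.PW

theorem sysQ (D : ℤ) (hD : ¬ IsSquare D) (Q u : ℕ) (hQ : 1 ≤ Q)
    (hu : ∀ p : ℕ, p.Prime → p ∣ Q → ¬ (p : ℤ) ∣ (u : ℤ) ^ 2 - D) :
    Poly.Sys (fun _ : Fin 1 => quad ((Q : ℤ) ^ 2) (2 * Q * u) ((u : ℤ) ^ 2 - D)) := by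
  have hQ0 : (Q : ℤ) ≠ 0 := by exact_mod_cast (by omega : Q ≠ 0)
  have hQ2 : (Q : ℤ) ^ 2 ≠ 0 := pow_ne_zero 2 hQ0
  have hg : ∀ p : ℕ, p.Prime → ¬ ((p : ℤ) ∣ (Q : ℤ) ^ 2 ∧ (p : ℤ) ∣ 2 * Q * u ∧ (p : ℤ) ∣ (u : ℤ) ^ 2 - D) := by
    rintro p hp ⟨h1, -, h3⟩
    have h4 : (p : ℤ) ∣ (Q : ℤ) := (Nat.prime_iff_prime_int.1 hp).dvd_of_dvd_pow h1
    exact hu p hp (by exact_mod_cast h4) h3
  refine ⟨fun _ => ?_, fun _ => ?_, fun _ => ?_, fun _ _ _ => Subsingleton.elim _ _, fun p hp => ?_⟩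
  · apply quad_irr _ _ _ hQ2 hg
    rintro ⟨r, hr⟩
    apply hD
    have h1 : r * r = (2 * (Q : ℤ)) ^ 2 * D := by rw [← hr]; ring
    have h2 : (2 * (Q : ℤ)) ^ 2 ∣ r ^ 2 := ⟨D, by rw [pow_two r, h1]⟩
    have h3 : 2 * (Q : ℤ) ∣ r := (Int.pow_dvd_pow_iff (by norm_num)).1 h2
    obtain ⟨s, hs⟩ := h3
    refine ⟨s, ?_⟩
    rw [hs] at h1
    have h4 : (2 * (Q : ℤ)) ^ 2 * (s * s) = (2 * (Q : ℤ)) ^ 2 * D := by rw [← h1]; ring
    exact (mul_left_cancel₀ (by positivity) h4).symm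
  · rw [quad_deg _ _ _ hQ2]
    norm_num
  · rw [quad_lead _ _ _ hQ2]
    positivity
  · obtain ⟨m, hm⟩ := quad_adm ((Q : ℤ) ^ 2) (2 * Q * u) ((u : ℤ) ^ 2 - D) hg (by
      rintro ⟨h1, h2⟩
      have h3 : Even ((Q : ℤ) ^ 2) := by
        have h4 : Even (2 * (Q : ℤ) * u) := by rw [mul_assoc]; exact even_two_mul _
        exact (Int.even_add.1 h1).2 h4
      have h5 : (2 : ℤ) ∣ (Q : ℤ) := by
        have := even_iff_two_dvd.1 h3
        exact Int.prime_two.dvd_of_dvd_pow this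
      exact hu 2 Nat.prime_two (by exact_mod_cast h5) (by exact_mod_cast even_iff_two_dvd.1 h2)) p hp
    exact ⟨m, fun _ => hm⟩

open Classical in
/-- the arguments in the class with at most two prime factors -/
noncomputable def PQ (D : ℤ) (Q u N H : ℕ) : Finset ℕ :=
  (Ioc N (N + H)).filter (fun x : ℕ => (((Q * x + u : ℕ) : ℤ) ^ 2 - D).natAbs.primeFactorsList.length ≤ 2 ∧
    ∀ p : ℕ, p.Prime → (p : ℤ) ∣ ((Q * x + u : ℕ) : ℤ) ^ 2 - D → (N : ℝ) ^ (6 / 25 : ℝ) ≤ p)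

/-- a term of a progression -/
def InAPQ (A : Finset ℕ) (l : ℕ) (D : ℝ) (n : ℕ) : Prop :=
  ∃ u d : ℕ, 1 ≤ d ∧ (d : ℝ) ≤ D ∧ (∀ i < l, u + i * d ∈ A) ∧ ∃ i < l, n = u + i * d

open Classical in
theorem narQ {D : ℤ} {q₀ : ℕ} (hw : HasWeylE D q₀) : ∃ c : ℝ, 0 < c ∧ ∀ (Q u : ℕ), 1 ≤ Q → q₀ ∣ Q → u < Q →
    (∀ p : ℕ, p.Prime → p ∣ Q → ¬ (p : ℤ) ∣ (u : ℤ) ^ 2 - D) → ∀ (l : ℕ) (ε : ℝ), 2 ≤ l → 0 < ε →
    ∃ B N₁ : ℕ, ∀ N H : ℕ, N₁ ≤ N → (N : ℝ) ^ (999 / 1000 : ℝ) ≤ H → H ≤ N →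
    c * (H / Real.log N) ≤ ((PQ D Q u N H).card : ℝ) ∧
    ∀ A : Finset ℕ, A ⊆ PQ D Q u N H →
      ((A.filter (fun n => ¬ InAPQ A l (Real.log N ^ B) n)).card : ℝ) ≤ ε * ((PQ D Q u N H).card : ℝ) := by
  obtain ⟨c, N1, hc, hcount⟩ := Pool.Agent.T2h76Q.E.count hw
  refine ⟨c / 2, by positivity, ?_⟩
  intro Q u hQ hq0 huQ hu l ε hl hε
  have hQr : (1 : ℝ) ≤ Q := by exact_mod_cast hQ
  have hQ0 : (0 : ℝ) < Q := by linarith
  obtain ⟨B, hB⟩ := Pool.Agent.Y677.RSZ.narrow (fun _ : Fin 1 => quad ((Q : ℤ) ^ 2) (2 * Q * u) ((u : ℤ) ^ 2 - D))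
    (sysQ D hw.nsq Q u hQ hu) (999 / 1000) (by norm_num) 5 (by norm_num) l hl (ε * (c / 2)) (by positivity)
  obtain ⟨N0, hN0⟩ := eventually_atTop.1 hB
  have hT := tendsto_natCast_atTop_atTop (R := ℝ)
  have ev : ∀ᶠ N : ℕ in atTop, (2 : ℝ) < (N : ℝ) ^ (1 / 50 : ℝ) :=
    ((tendsto_rpow_atTop (by norm_num)).comp hT).eventually_gt_atTop _
  have ev2 : ∀ᶠ N : ℕ in atTop, (Q : ℝ) ≤ (N : ℝ) ^ (1 / 60000 : ℝ) :=
    ((tendsto_rpow_atTop (by norm_num)).comp hT).eventually_ge_atTop _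
  have ev3 : ∀ᶠ N : ℕ in atTop, 2 * (Q : ℝ) ≤ N := hT.eventually_ge_atTop _
  have ev4 : ∀ᶠ N : ℕ in atTop, 1 / ((2 : ℝ) ^ (1 / 1000 : ℝ) - 1) ≤ N := hT.eventually_ge_atTop _
  obtain ⟨N2, hN2⟩ := eventually_atTop.1 (ev.and (ev2.and (ev3.and ev4)))
  refine ⟨B, max (max N1 N0) (max N2 3), ?_⟩
  intro N H hNN hH hHN
  have hN1 : N1 ≤ N := ((le_max_left _ _).trans (le_max_left _ _)).trans hNN
  have hN0' : N0 ≤ N := ((le_max_right _ _).trans (le_max_left _ _)).trans hNN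
  obtain ⟨hN2', hQN, h2QN, h4N⟩ := hN2 N (((le_max_left _ _).trans (le_max_right _ _)).trans hNN)
  have hN3 : 3 ≤ N := ((le_max_right _ _).trans (le_max_right _ _)).trans hNN
  have hNr : (3 : ℝ) ≤ N := by exact_mod_cast hN3
  have hNp : (0 : ℝ) < N := by linarith
  have hlN : 0 < Real.log N := Real.log_pos (by linarith)
  have hur : (u : ℝ) + 1 ≤ Q := by exact_mod_cast huQ
  have hu0 : (0 : ℝ) ≤ u := Nat.cast_nonneg u
  have hNQ : N ≤ Q * N + u := by nlinarith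
  have hlow : c / 2 * (H / Real.log N) ≤ ((PQ D Q u N H).card : ℝ) := by
    have h1 := hcount (Q * N + u) (Q * H) (hN1.trans hNQ) (by
      have := Nat.mul_le_mul_left Q hHN
      omega) (by
      push_cast
      -- the length of the interval
      rcases Nat.lt_or_ge Q 2 with h2 | h2
      · have hQ1 : Q = 1 := by omega
        have hu1 : u = 0 := by omega
        subst hQ1
        subst hu1
        simpa using hH
      · have h3 : (0 : ℝ) < (2 : ℝ) ^ (1 / 1000 : ℝ) - 1 := by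
          have : (1 : ℝ) < (2 : ℝ) ^ (1 / 1000 : ℝ) := Real.one_lt_rpow (by norm_num) (by norm_num)
          linarith
        have h4 : (1 : ℝ) ≤ N * ((2 : ℝ) ^ (1 / 1000 : ℝ) - 1) := by
          rwa [div_le_iff₀ h3] at h4N
        have h5 : (Q : ℝ) * N + u ≤ Q * (N * (2 : ℝ) ^ (1 / 1000 : ℝ)) := by nlinarith
        have h6 : (2 : ℝ) ≤ Q := by exact_mod_cast h2
        calc ((Q : ℝ) * N + u) ^ (999 / 1000 : ℝ) ≤
            (Q * (N * (2 : ℝ) ^ (1 / 1000 : ℝ))) ^ (999 / 1000 : ℝ) :=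
              Real.rpow_le_rpow (by positivity) h5 (by norm_num)
          _ = (Q : ℝ) ^ (999 / 1000 : ℝ) * ((N : ℝ) ^ (999 / 1000 : ℝ) *
              ((2 : ℝ) ^ (1 / 1000 : ℝ)) ^ (999 / 1000 : ℝ)) := by
              rw [Real.mul_rpow hQ0.le (by positivity), Real.mul_rpow hNp.le (by positivity)]
          _ ≤ (Q : ℝ) ^ (999 / 1000 : ℝ) * ((N : ℝ) ^ (999 / 1000 : ℝ) * (Q : ℝ) ^ (1 / 1000 : ℝ)) := by
              gcongr
              calc ((2 : ℝ) ^ (1 / 1000 : ℝ)) ^ (999 / 1000 : ℝ) ≤ ((2 : ℝ) ^ (1 / 1000 : ℝ)) ^ (1 : ℝ) :=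
                    Real.rpow_le_rpow_of_exponent_le (by linarith) (by norm_num)
                _ = (2 : ℝ) ^ (1 / 1000 : ℝ) := Real.rpow_one _
                _ ≤ (Q : ℝ) ^ (1 / 1000 : ℝ) := Real.rpow_le_rpow (by norm_num) h6 (by norm_num)
          _ = ((Q : ℝ) ^ (999 / 1000 : ℝ) * (Q : ℝ) ^ (1 / 1000 : ℝ)) * (N : ℝ) ^ (999 / 1000 : ℝ) := by ring
          _ = Q * (N : ℝ) ^ (999 / 1000 : ℝ) := by
              rw [← Real.rpow_add hQ0]
              norm_num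
          _ ≤ Q * H := mul_le_mul_of_nonneg_left hH hQ0.le) Q u hQ hq0 (by
      push_cast
      refine hQN.trans ?_
      calc (N : ℝ) ^ (1 / 60000 : ℝ) ≤ (N : ℝ) ^ (1 / 50000 : ℝ) :=
            Real.rpow_le_rpow_of_exponent_le (by linarith) (by norm_num)
        _ ≤ _ := Real.rpow_le_rpow hNp.le (by nlinarith) (by norm_num)) hu
    have h2 : c / 2 * (H / Real.log N) ≤ c * ((Q * H : ℕ) / (Q * Real.log ((Q * N + u : ℕ) : ℝ))) := by
      have h3 : Real.log ((Q * N + u : ℕ) : ℝ) ≤ 2 * Real.log N := by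
        rw [← Real.log_rpow hNp]
        apply Real.log_le_log
        · push_cast
          positivity
        · push_cast
          rw [Real.rpow_two]
          nlinarith
      have h4 : 0 < Real.log ((Q * N + u : ℕ) : ℝ) := by
        apply Real.log_pos
        have : (N : ℝ) ≤ ((Q * N + u : ℕ) : ℝ) := by exact_mod_cast hNQ
        linarith
      have h5 : c * ((Q * H : ℕ) / (Q * Real.log ((Q * N + u : ℕ) : ℝ))) =
          c * (H / Real.log ((Q * N + u : ℕ) : ℝ)) := by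
        push_cast
        field_simp
      rw [h5]
      have h6 : c / 2 * (H / Real.log N) = c * (H / (2 * Real.log N)) := by
        field_simp
      rw [h6]
      apply mul_le_mul_of_nonneg_left _ hc.le
      exact div_le_div_of_nonneg_left (Nat.cast_nonneg _) h4 h3
    refine h2.trans (h1.trans ?_)
    rw [Nat.cast_le]
    apply card_le_card_of_injOn (fun n : ℤ => ((n - (u : ℤ)) / (Q : ℤ)).toNat)
    · intro n hn
      rw [mem_coe, mem_filter, mem_Ioc] at hn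
      obtain ⟨⟨a1, a2⟩, a3, a4, a5⟩ := hn
      obtain ⟨x, hx⟩ := a3
      have hQz : (0 : ℤ) < Q := by exact_mod_cast hQ
      have e1 : (n - u) / Q = x := by rw [hx]; exact Int.mul_ediv_cancel_left _ hQz.ne'
      push_cast at a1 a2
      have hxN : (N : ℤ) < x := by
        have : (Q : ℤ) * N < Q * x := by linarith
        exact lt_of_mul_lt_mul_left this hQz.le
      have hxH : x ≤ N + H := by
        have : (Q : ℤ) * x ≤ Q * (N + H) := by linarith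
        exact le_of_mul_le_mul_left this hQz
      obtain ⟨m, rfl⟩ : ∃ m : ℕ, x = m := ⟨x.toNat, by omega⟩
      show ((n - u) / Q).toNat ∈ _
      rw [e1, Int.toNat_natCast]
      unfold PQ
      rw [mem_coe, mem_filter, mem_Ioc]
      have e2 : ((Q * m + u : ℕ) : ℤ) = n := by
        push_cast
        linarith
      rw [e2]
      refine ⟨⟨by omega, by omega⟩, a4, fun p hp hpd => ?_⟩
      refine le_trans ?_ (a5 p hp hpd)
      apply Real.rpow_le_rpow hNp.le _ (by norm_num)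
      exact_mod_cast hNQ
    · intro n hn n' hn' he
      rw [mem_coe, mem_filter, mem_Ioc] at hn hn'
      obtain ⟨⟨a1, a2⟩, ⟨x, hx⟩, -⟩ := hn
      obtain ⟨⟨a1', a2'⟩, ⟨x', hx'⟩, -⟩ := hn'
      have hQz : (0 : ℤ) < Q := by exact_mod_cast hQ
      have e1 : (n - u) / Q = x := by rw [hx]; exact Int.mul_ediv_cancel_left _ hQz.ne'
      have e1' : (n' - u) / Q = x' := by rw [hx']; exact Int.mul_ediv_cancel_left _ hQz.ne'
      push_cast at a1 a1'
      have hx0 : (0 : ℤ) ≤ x := by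
        have : (0 : ℤ) ≤ Q * x := by nlinarith
        exact nonneg_of_mul_nonneg_right this hQz
      have hx0' : (0 : ℤ) ≤ x' := by
        have : (0 : ℤ) ≤ Q * x' := by nlinarith
        exact nonneg_of_mul_nonneg_right this hQz
      have he' : ((n - u) / Q).toNat = ((n' - u) / Q).toNat := he
      rw [e1, e1'] at he'
      have h3 : (x.toNat : ℤ) = (x'.toNat : ℤ) := by exact_mod_cast he'
      rw [Int.toNat_of_nonneg hx0, Int.toNat_of_nonneg hx0'] at h3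
      rw [h3] at hx
      linarith
  refine ⟨hlow, ?_⟩
  intro A hA
  have h1 := hN0 N hN0' H hH hHN (A : Set ℕ) (by
    intro m hm i p hp hd
    rw [quad_eval] at hd
    have hm' : m ∈ PQ D Q u N H := hA hm
    unfold PQ at hm'
    rw [mem_filter, mem_Ioc] at hm'
    have e : (Q : ℤ) ^ 2 * (m : ℤ) ^ 2 + 2 * Q * u * m + ((u : ℤ) ^ 2 - D) = ((Q * m + u : ℕ) : ℤ) ^ 2 - D := by
      push_cast
      ring
    rw [e] at hd
    have h2 := hm'.2.2 p hp hd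
    refine lt_of_lt_of_le ?_ h2
    have h3 : (m : ℝ) ≤ 2 * N := by
      have h4 : m ≤ 2 * N := by omega
      exact_mod_cast h4
    have hmpos : (0 : ℝ) ≤ m := Nat.cast_nonneg m
    push_cast
    calc (m : ℝ) ^ (1 / (5 : ℝ)) ≤ (2 * (N : ℝ)) ^ (1 / (5 : ℝ)) :=
          Real.rpow_le_rpow hmpos h3 (by norm_num)
      _ = (2 : ℝ) ^ (1 / (5 : ℝ)) * (N : ℝ) ^ (1 / (5 : ℝ)) := Real.mul_rpow (by norm_num) hNp.le
      _ < ((N : ℝ) ^ (1 / 50 : ℝ)) * (N : ℝ) ^ (1 / (5 : ℝ)) := by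
          apply mul_lt_mul_of_pos_right _ (by positivity)
          calc (2 : ℝ) ^ (1 / (5 : ℝ)) ≤ (2 : ℝ) ^ (1 : ℝ) :=
                Real.rpow_le_rpow_of_exponent_le (by norm_num) (by norm_num)
            _ = 2 := Real.rpow_one _
            _ < _ := hN2'
      _ = (N : ℝ) ^ (1 / 50 + 1 / 5 : ℝ) := by rw [Real.rpow_add hNp]
      _ ≤ _ := Real.rpow_le_rpow_of_exponent_le (by linarith) (by norm_num))
  rw [Fintype.card_fin, pow_one] at h1
  have h2 : ((A.filter (fun n => ¬ InAPQ A l (Real.log N ^ B) n)).card : ℝ) ≤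
      (Pool.Agent.TH977.PW.N (Pool.Agent.Y677.RSZ.Outside (A : Set ℕ) l (Real.log N ^ B) N (N + H)) N
        (N + H) : ℝ) := by
    unfold Pool.Agent.TH977.PW.N
    rw [Nat.cast_le]
    apply card_le_card
    intro n hn
    rw [mem_filter] at hn
    have hnP := hA hn.1
    unfold PQ at hnP
    rw [mem_filter] at hnP
    rw [mem_filter]
    refine ⟨hnP.1, hn.1, fun hP => hn.2 ?_⟩
    obtain ⟨u, d, h3, h4, h5, h6⟩ := hP
    exact ⟨u, d, h3, h4, fun i hi => (h5 i hi).1, h6⟩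
  refine h2.trans (h1.trans ?_)
  calc ε * (c / 2) * H / Real.log N = ε * (c / 2 * (H / Real.log N)) := by ring
    _ ≤ ε * ((PQ D Q u N H).card : ℝ) := mul_le_mul_of_nonneg_left hlow hε.le

end Pool.Agent.T2h76R
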